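import Pool.Agent.H15.Sig.Mom

/-!
# Generalized binomial coefficients and the series `Σ (μ choose k)² X^(2k) / (k + 1)`
-/

open Complex Set Filter Topology MeasureTheory
open scoped ComplexConjugate Real

namespace Pool.Agent.H12.DP

open Pool.Agent.H15.Sig

/-- generalized binomial coefficients -/
noncomputable def bc (p : ℝ) : ℕ → ℝ
  | 0 => 1
  | k + 1 => bc p k * (p - k) / (k + 1)

theorem bc_succ (p : ℝ) (k : ℕ) : ((k : ℝ) + 1) * bc p (k + 1) = (p - k) * bc p k := by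
  have : (k : ℝ) + 1 ≠ 0 := by positivity
  rw [bc]; field_simp

theorem choose_eq (p : ℝ) (k : ℕ) : Ring.choose (p : ℂ) k = (bc p k : ℂ) := by
  induction k with
  | zero => simp [bc]
  | succ k ih =>
    have h := Ring.choose_smul_choose (p : ℂ) (Nat.le_succ k)
    rw [Nat.succ_eq_add_one, Nat.add_sub_cancel_left, Ring.choose_one_right,
      Nat.choose_succ_self_right, ih, nsmul_eq_mul] at h
    have h2 : ((k : ℂ) + 1) ≠ 0 := by exact_mod_cast Nat.succ_ne_zero k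
    have h3 := congrArg (fun x : ℝ => (x : ℂ)) (bc_succ p k)
    push_cast at h3 h
    apply mul_left_cancel₀ h2
    rw [h, h3]; ring

/-- `(k + 1) (p choose k + 1) = p (p - 1 choose k)` -/
theorem bc_succ' (p : ℝ) (k : ℕ) : ((k : ℝ) + 1) * bc p (k + 1) = p * bc (p - 1) k := by
  induction k with
  | zero => simp [bc]
  | succ k ih =>
    have h1 := bc_succ p (k + 1)
    have h2 := bc_succ (p - 1) k
    have h3 : (k : ℝ) + 1 ≠ 0 := by positivity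
    apply mul_left_cancel₀ h3
    push_cast at h1 ⊢
    rw [h1]
    linear_combination (p - (k + 1)) * ih - p * h2

theorem max_step {μ : ℝ} (hμ : 0 ≤ μ) (k : ℕ) : |μ - k| ≤ max μ k := by
  have hk : (0:ℝ) ≤ k := Nat.cast_nonneg k
  rw [abs_le]
  constructor
  · have := le_max_right μ (k : ℝ); linarith
  · have := le_max_left μ (k : ℝ); linarith

theorem bc_step {μ : ℝ} (hμ : 0 ≤ μ) (k : ℕ) :
    |bc μ (k + 1)| ≤ max μ 1 * |bc μ k| := by
  have h1 := bc_succ μ k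
  have hk : (0:ℝ) ≤ k := Nat.cast_nonneg k
  have h2 : ((k : ℝ) + 1) * |bc μ (k + 1)| = |μ - k| * |bc μ k| := by
    rw [← abs_of_nonneg (by positivity : (0:ℝ) ≤ (k:ℝ) + 1), ← abs_mul, h1, abs_mul]
  have h3 := max_step hμ k
  have h4 : max μ (k : ℝ) ≤ max μ 1 * ((k : ℝ) + 1) := by
    apply max_le
    · have := le_max_left μ 1
      have h5 : 0 ≤ max μ 1 := le_trans hμ this
      nlinarith
    · have := le_max_right μ (1:ℝ)
      nlinarith
  have h5 : ((k : ℝ) + 1) * |bc μ (k + 1)| ≤ ((k : ℝ) + 1) * (max μ 1 * |bc μ k|) := by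
    rw [h2]
    have := mul_le_mul_of_nonneg_right (h3.trans h4) (abs_nonneg (bc μ k))
    linarith
  exact le_of_mul_le_mul_left h5 (by positivity)

theorem bc_steps {μ : ℝ} (hμ : 0 ≤ μ) (k j : ℕ) :
    |bc μ (k + j)| ≤ max μ 1 ^ j * |bc μ k| := by
  induction j with
  | zero => simp
  | succ j ih =>
    have h1 := bc_step hμ (k + j)
    have h2 : 0 ≤ max μ 1 := le_trans zero_le_one (le_max_right _ _)
    calc |bc μ (k + (j + 1))| ≤ max μ 1 * |bc μ (k + j)| := h1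
      _ ≤ max μ 1 * (max μ 1 ^ j * |bc μ k|) := mul_le_mul_of_nonneg_left ih h2
      _ = max μ 1 ^ (j + 1) * |bc μ k| := by rw [pow_succ]; ring

/-- the weights -/
noncomputable def wt (μ X : ℝ) (k : ℕ) : ℝ := bc μ k ^ 2 * X ^ (2 * k) / (k + 1)

theorem wt_nonneg (μ X : ℝ) (k : ℕ) : 0 ≤ wt μ X k := by
  unfold wt
  rw [pow_mul]
  positivity

theorem summable_bc {μ X : ℝ} (hX0 : 0 ≤ X) (hX : X < 1) :
    Summable fun k : ℕ => bc μ k ^ 2 * X ^ (2 * k) := by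
  have h := (Mo_hasSum μ hX0 hX).summable
  have h2 := h.mul_left ((2 * π)⁻¹)
  refine h2.congr fun k => ?_
  have hπ := Real.pi_ne_zero
  rw [choose_eq, norm_real, Real.norm_eq_abs, sq_abs]
  field_simp

theorem summable_wt {μ X : ℝ} (hX0 : 0 ≤ X) (hX : X < 1) : Summable (wt μ X) := by
  refine Summable.of_nonneg_of_le (wt_nonneg μ X) (fun k => ?_) (summable_bc (μ := μ) hX0 hX)
  unfold wt
  have hk : (0:ℝ) ≤ k := Nat.cast_nonneg k
  rw [div_le_iff₀ (by positivity)]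
  have : 0 ≤ bc μ k ^ 2 * X ^ (2 * k) := by positivity
  nlinarith

/-- `W' = Σ (μ choose k)² X^(2k) / (k + 1)` -/
noncomputable def W1 (μ X : ℝ) : ℝ := ∑' k, wt μ X k

theorem W1_ge_one {μ X : ℝ} (hX0 : 0 ≤ X) (hX : X < 1) : 1 ≤ W1 μ X := by
  have h := (summable_wt (μ := μ) hX0 hX).sum_le_tsum {0} (fun k _ => wt_nonneg μ X k)
  simpa [wt, bc, W1] using h

/-- the recursion for the second moment -/
theorem wt_rec {μ X : ℝ} (hμ : 0 ≤ μ) (k : ℕ) :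
    ((k : ℝ) + 1) ^ 2 * wt μ X (k + 1) ≤ X ^ 2 * ((μ ^ 2 + (k : ℝ) ^ 2) * wt μ X k) := by
  have h1 := bc_succ μ k
  have h2 : (((k : ℝ) + 1) * bc μ (k + 1)) ^ 2 ≤ (μ ^ 2 + (k : ℝ) ^ 2) * bc μ k ^ 2 := by
    rw [h1, mul_pow]
    apply mul_le_mul_of_nonneg_right _ (sq_nonneg _)
    have hk : (0:ℝ) ≤ k := Nat.cast_nonneg k
    nlinarith
  unfold wt
  have hk : (0:ℝ) ≤ k := Nat.cast_nonneg k
  have e1 : ((k : ℝ) + 1) ^ 2 * (bc μ (k + 1) ^ 2 * X ^ (2 * (k + 1)) / (((k + 1 : ℕ) : ℝ) + 1)) =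
      (((k : ℝ) + 1) * bc μ (k + 1)) ^ 2 * (X ^ (2 * (k + 1)) / ((k : ℝ) + 1 + 1)) := by
    push_cast; ring
  have e2 : X ^ 2 * ((μ ^ 2 + (k : ℝ) ^ 2) * (bc μ k ^ 2 * X ^ (2 * k) / ((k : ℝ) + 1))) =
      ((μ ^ 2 + (k : ℝ) ^ 2) * bc μ k ^ 2) * (X ^ (2 * (k + 1)) / ((k : ℝ) + 1)) := by
    rw [show 2 * (k + 1) = 2 * k + 2 by ring, pow_add]; ring
  rw [e1, e2]
  have h3 : (X ^ 2) ^ (k + 1) / ((k : ℝ) + 1 + 1) ≤ (X ^ 2) ^ (k + 1) / ((k : ℝ) + 1) :=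
    div_le_div_of_nonneg_left (by positivity) (by positivity) (by linarith)
  rw [← pow_mul] at h3
  exact mul_le_mul h2 h3 (by rw [pow_mul]; positivity) (by positivity)

theorem second_partial {μ X : ℝ} (hμ : 0 ≤ μ) (hX0 : 0 ≤ X) (hX : X < 1) (N : ℕ) :
    ∑ k ∈ Finset.range N, (k : ℝ) ^ 2 * wt μ X k ≤ X ^ 2 * μ ^ 2 / (1 - X ^ 2) * W1 μ X := by
  have hX2 : 0 < 1 - X ^ 2 := by nlinarith
  have hW := summable_wt (μ := μ) hX0 hX
  have key : ∀ N : ℕ, ∑ k ∈ Finset.range (N + 1), (k : ℝ) ^ 2 * wt μ X k ≤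
      X ^ 2 * (μ ^ 2 * W1 μ X) + X ^ 2 * ∑ k ∈ Finset.range (N + 1), (k : ℝ) ^ 2 * wt μ X k := by
    intro N
    have h1 : ∑ k ∈ Finset.range (N + 1), (k : ℝ) ^ 2 * wt μ X k =
        ∑ k ∈ Finset.range N, ((k : ℝ) + 1) ^ 2 * wt μ X (k + 1) := by
      rw [Finset.sum_range_succ']
      simp
    have h2 : ∑ k ∈ Finset.range N, ((k : ℝ) + 1) ^ 2 * wt μ X (k + 1) ≤
        ∑ k ∈ Finset.range N, X ^ 2 * ((μ ^ 2 + (k : ℝ) ^ 2) * wt μ X k) :=
      Finset.sum_le_sum fun k _ => wt_rec hμ k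
    have h3 : ∑ k ∈ Finset.range N, X ^ 2 * ((μ ^ 2 + (k : ℝ) ^ 2) * wt μ X k) =
        X ^ 2 * (μ ^ 2 * ∑ k ∈ Finset.range N, wt μ X k) +
        X ^ 2 * ∑ k ∈ Finset.range N, (k : ℝ) ^ 2 * wt μ X k := by
      rw [Finset.mul_sum, Finset.mul_sum, Finset.mul_sum, ← Finset.sum_add_distrib]
      exact Finset.sum_congr rfl fun k _ => by ring
    have h4 : ∑ k ∈ Finset.range N, wt μ X k ≤ W1 μ X :=
      hW.sum_le_tsum _ (fun k _ => wt_nonneg μ X k)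
    have h5 : ∑ k ∈ Finset.range N, (k : ℝ) ^ 2 * wt μ X k ≤
        ∑ k ∈ Finset.range (N + 1), (k : ℝ) ^ 2 * wt μ X k := by
      rw [Finset.sum_range_succ]
      have : 0 ≤ (N : ℝ) ^ 2 * wt μ X N := mul_nonneg (sq_nonneg _) (wt_nonneg _ _ _)
      linarith
    have h6 := mul_le_mul_of_nonneg_left h4 (sq_nonneg μ)
    have h7 := mul_le_mul_of_nonneg_left h6 (sq_nonneg X)
    have h8 := mul_le_mul_of_nonneg_left h5 (sq_nonneg X)
    linarith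
  have h9 : ∑ k ∈ Finset.range N, (k : ℝ) ^ 2 * wt μ X k ≤
      ∑ k ∈ Finset.range (N + 1), (k : ℝ) ^ 2 * wt μ X k := by
    rw [Finset.sum_range_succ]
    have : 0 ≤ (N : ℝ) ^ 2 * wt μ X N := mul_nonneg (sq_nonneg _) (wt_nonneg _ _ _)
    linarith
  refine h9.trans ?_
  rw [div_mul_eq_mul_div, le_div_iff₀ hX2]
  have := key N
  linarith

/-- the main estimate for weighted sums -/
theorem wt_sum {μ X : ℝ} (hμ : 0 ≤ μ) (hX0 : 0 ≤ X) (hX : X < 1) {f : ℕ → ℝ} {A B : ℝ}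
    (hA : 0 ≤ A) (hB : 0 ≤ B) (hf0 : ∀ k, 0 ≤ f k) (hf : ∀ k : ℕ, f k ≤ A + B * (k : ℝ) ^ 2) :
    Summable (fun k => f k * wt μ X k) ∧
    ∑' k, f k * wt μ X k ≤ (A + B * (X ^ 2 * μ ^ 2 / (1 - X ^ 2))) * W1 μ X := by
  have hb : ∀ N : ℕ, ∑ k ∈ Finset.range N, f k * wt μ X k ≤
      (A + B * (X ^ 2 * μ ^ 2 / (1 - X ^ 2))) * W1 μ X := by
    intro N
    have h1 : ∑ k ∈ Finset.range N, f k * wt μ X k ≤
        ∑ k ∈ Finset.range N, (A + B * (k : ℝ) ^ 2) * wt μ X k :=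
      Finset.sum_le_sum fun k _ => mul_le_mul_of_nonneg_right (hf k) (wt_nonneg _ _ _)
    have h2 : ∑ k ∈ Finset.range N, (A + B * (k : ℝ) ^ 2) * wt μ X k =
        A * ∑ k ∈ Finset.range N, wt μ X k + B * ∑ k ∈ Finset.range N, (k : ℝ) ^ 2 * wt μ X k := by
      rw [Finset.mul_sum, Finset.mul_sum, ← Finset.sum_add_distrib]
      exact Finset.sum_congr rfl fun k _ => by ring
    have h3 := mul_le_mul_of_nonneg_left ((summable_wt (μ := μ) hX0 hX).sum_le_tsum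
      (Finset.range N) (fun k _ => wt_nonneg μ X k)) hA
    have h4 := mul_le_mul_of_nonneg_left (second_partial hμ hX0 hX N) hB
    have h5 : A * ∑' k, wt μ X k = A * W1 μ X := rfl
    rw [h2] at h1
    linarith
  have hs : Summable (fun k => f k * wt μ X k) :=
    summable_of_sum_range_le (fun k => mul_nonneg (hf0 k) (wt_nonneg _ _ _)) hb
  exact ⟨hs, Real.tsum_le_of_sum_range_le (fun k => mul_nonneg (hf0 k) (wt_nonneg _ _ _)) hb⟩

end Pool.Agent.H12.DP
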