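import Pool.Agent.H12.DP.Nu

/-!
# The numerical inequality of case B
-/

open Real

namespace Pool.Agent.H12.DP

/-- `h(q) = (2 - q)/(1 - q)^2` -/
noncomputable def hq (q : ℝ) : ℝ := (2 - q) / (1 - q) ^ 2

theorem q_le {q μ : ℝ} (hq0 : 0 < q) (hμ : 0 ≤ μ) (hpq : (μ + 1) * q ^ 2 ≤ 1 / 32) :
    q ≤ 9 / 50 := by
  by_contra h
  have h := not_le.1 h
  nlinarith [mul_nonneg hμ (sq_nonneg q)]

theorem hq_pos {q : ℝ} (hq1 : q ≤ 9 / 50) : 0 < hq q := by
  unfold hq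
  have : 0 < 1 - q := by linarith
  have : 0 < 2 - q := by linarith
  positivity

theorem hq_le {q : ℝ} (hq0 : 0 < q) (hq1 : q ≤ 9 / 50) : hq q ≤ 28 / 10 := by
  unfold hq
  have : 0 < 1 - q := by linarith
  rw [div_le_iff₀ (by positivity)]
  nlinarith

theorem E_le {Y μ T : ℝ} (hY : 0 ≤ Y) (hμ : 0 ≤ μ) (hT : 2 * μ * Y ≤ T) (hT1 : T < 1) :
    (1 + Y) ^ (2 * μ) ≤ 1 / (1 - T) := by
  have h1 : (1 + Y) ^ (2 * μ) ≤ Real.exp Y ^ (2 * μ) := by
    apply Real.rpow_le_rpow (by linarith) (by linarith [Real.add_one_le_exp Y]) (by linarith)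
  rw [← Real.exp_mul] at h1
  have h2 : Real.exp (Y * (2 * μ)) ≤ Real.exp T := Real.exp_le_exp.2 (by linarith)
  have h3 := Real.add_one_le_exp (-T)
  have h4 : Real.exp T ≤ 1 / (1 - T) := by
    rw [le_div_iff₀ (by linarith)]
    have h5 : Real.exp T * Real.exp (-T) = 1 := by rw [← Real.exp_add]; simp
    have h6 := Real.exp_pos T
    nlinarith
  linarith

theorem num_two {q : ℝ} (h0 : 0 < q) (h1 : q ≤ 1 / 32) :
    (1 + (1 - 32 * (q * q))) * hq q * (q + 1 / 32) <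
    (823 / 1856 + 27 / 2 * (q * q) - 9 * (q * q * (q * q)) / (1 - q * q)) *
      (1 - (1 - 32 * (q * q)) * hq q / (8 * (1 - q))) := by
  have hq1 : 0 < 1 - q := by linarith
  have hh0 : 0 < hq q := hq_pos (by linarith)
  have hh : hq q ≤ 21 / 10 := by
    unfold hq
    rw [div_le_iff₀ (by positivity)]
    nlinarith
  have hqq : q * q ≤ 1 / 1024 := by nlinarith
  have hqq0 : 0 < q * q := by positivity
  have h2 : (1 + (1 - 32 * (q * q))) * hq q * (q + 1 / 32) ≤ 2 * (21 / 10) * (1 / 16) := by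
    apply mul_le_mul _ (by linarith) (by linarith) (by norm_num)
    exact mul_le_mul (by linarith) hh hh0.le (by norm_num)
  have h3 : (1 - 32 * (q * q)) * hq q / (8 * (1 - q)) ≤ 28 / 100 := by
    rw [div_le_iff₀ (by positivity)]
    have : (1 - 32 * (q * q)) * hq q ≤ 1 * (21 / 10) :=
      mul_le_mul (by linarith) hh hh0.le (by norm_num)
    linarith
  have h4 : 9 * (q * q * (q * q)) / (1 - q * q) ≤ 1 / 1000 := by
    rw [div_le_iff₀ (by linarith)]
    nlinarith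
  have h5 : (442 / 1000 : ℝ) * (72 / 100) ≤
      (823 / 1856 + 27 / 2 * (q * q) - 9 * (q * q * (q * q)) / (1 - q * q)) *
      (1 - (1 - 32 * (q * q)) * hq q / (8 * (1 - q))) := by
    apply mul_le_mul (by linarith) (by linarith) (by norm_num)
    linarith
  linarith

theorem num_comb {q μ w w' : ℝ} (hq0 : 0 < q) (hμ : 0 ≤ μ) (hpq : (μ + 1) * q ^ 2 ≤ 1 / 32)
    (hw0 : 0 ≤ w) (hw : q * w ≤ w')
    (hnum : (1 + (1 - 32 * (q * q))) * hq q * w' <
      (823 / 1856 + 27 / 2 * (q * q) - 9 * (q * q * (q * q)) / (1 - q * q)) *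
      (1 - (1 - 32 * (q * q)) * hq q / (8 * (1 - q))))
    (hT : (1 - 32 * (q * q)) * hq q / (8 * (1 - q)) < 1) :
    27 * q ^ 2 * (μ / 2 + q ^ 2 / (3 * (1 - q ^ 2))) + 125 / 928 +
      (2 - 1 / (μ + 1)) * (1 + 2 * q ^ 2 * hq q / (1 - q)) ^ (2 * μ) * (q * hq q * w) < 1 := by
  have hq1 := q_le hq0 hμ hpq
  have hh0 := hq_pos hq1
  have h1q : 0 < 1 - q := by linarith
  set m : ℝ := 1 - 32 * (q * q) with hm
  have hμq : μ * q ^ 2 ≤ m / 32 := by rw [hm]; linarith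
  have hm0 : 0 ≤ m := by
    have : 0 ≤ μ * q ^ 2 := by positivity
    linarith
  set T : ℝ := m * hq q / (8 * (1 - q)) with hTd
  have hT0 : 0 ≤ T := by positivity
  have hY : 0 ≤ 2 * q ^ 2 * hq q / (1 - q) := by positivity
  have hE := E_le (Y := 2 * q ^ 2 * hq q / (1 - q)) (μ := μ) (T := T) hY hμ (by
    rw [hTd]
    have e : 2 * μ * (2 * q ^ 2 * hq q / (1 - q)) = 4 * (μ * q ^ 2) * hq q / (1 - q) := by ring
    rw [e, div_le_div_iff₀ h1q (by positivity)]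
    have h2 : 0 ≤ hq q * (1 - q) := by positivity
    nlinarith [mul_le_mul_of_nonneg_right hμq h2]) hT
  have hp : 2 - 1 / (μ + 1) ≤ 1 + m := by
    have h3 : 32 * q ^ 2 ≤ 1 / (μ + 1) := by
      rw [le_div_iff₀ (by linarith)]; linarith
    rw [hm]; nlinarith
  have hp0 : 0 ≤ 2 - 1 / (μ + 1) := by
    have : 1 / (μ + 1) ≤ 1 := by rw [div_le_one (by linarith)]; linarith
    linarith
  have hE0 : 0 ≤ (1 + 2 * q ^ 2 * hq q / (1 - q)) ^ (2 * μ) := by positivity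
  have h4 : (2 - 1 / (μ + 1)) * (1 + 2 * q ^ 2 * hq q / (1 - q)) ^ (2 * μ) * (q * hq q * w) ≤
      (1 + m) * (1 / (1 - T)) * (hq q * w') := by
    apply mul_le_mul (mul_le_mul hp hE hE0 (by linarith))
    · have := mul_le_mul_of_nonneg_left hw hh0.le
      linarith
    · positivity
    · have : 0 < 1 - T := by linarith
      positivity
  have h5 : (1 + m) * (1 / (1 - T)) * (hq q * w') <
      823 / 1856 + 27 / 2 * (q * q) - 9 * (q * q * (q * q)) / (1 - q * q) := by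
    have h6 : (1 + m) * (1 / (1 - T)) * (hq q * w') = (1 + m) * hq q * w' / (1 - T) := by
      field_simp
    rw [h6, div_lt_iff₀ (by linarith)]
    exact hnum
  have h7 : 27 * q ^ 2 * (μ / 2 + q ^ 2 / (3 * (1 - q ^ 2))) ≤
      27 / 64 * m + 9 * (q * q * (q * q)) / (1 - q * q) := by
    have e : 27 * q ^ 2 * (μ / 2 + q ^ 2 / (3 * (1 - q ^ 2))) =
        27 / 2 * (μ * q ^ 2) + 9 * (q * q * (q * q)) / (1 - q * q) := by
      have : 1 - q ^ 2 ≠ 0 := by nlinarith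
      have h8 : 1 - q * q ≠ 0 := by rw [← sq]; exact this
      field_simp
      ring
    rw [e]
    linarith
  rw [hm] at h7
  linarith

/-- the numerical inequality -/
theorem num_final {q μ : ℝ} (hq0 : 0 < q) (hμ : 0 ≤ μ) (hpq : (μ + 1) * q ^ 2 ≤ 1 / 32) :
    ∃ w : ℝ, 0 < w ∧ (w = 1 + q ^ 2 * μ ^ 2 / (1 - q ^ 2) ∨
        ∃ θ : ℝ, 0 < θ ∧ w = 1 + θ ∧ q ^ 2 * μ ^ 2 / (1 - q ^ 2) ≤ θ ^ 2) ∧
      27 * q ^ 2 * (μ / 2 + q ^ 2 / (3 * (1 - q ^ 2))) + 125 / 928 +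
        (2 - 1 / (μ + 1)) * (1 + 2 * q ^ 2 * hq q / (1 - q)) ^ (2 * μ) * (q * hq q * w) < 1 := by
  have hq1 := q_le hq0 hμ hpq
  have hh0 := hq_pos hq1
  have hh1 := hq_le hq0 hq1
  have h1q : 0 < 1 - q := by linarith
  have h1q2 : 0 < 1 - q ^ 2 := by nlinarith
  have hμq : μ * q ^ 2 ≤ (1 - 32 * (q * q)) / 32 := by linarith
  have hμq0 : 0 ≤ μ * q ^ 2 := by positivity
  have hm0 : 0 ≤ 1 - 32 * (q * q) := by linarith
  have hT : (1 - 32 * (q * q)) * hq q / (8 * (1 - q)) < 1 := by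
    rw [div_lt_one (by positivity)]
    have : (1 - 32 * (q * q)) * hq q ≤ 1 * (28 / 10) :=
      mul_le_mul (by nlinarith) hh1 hh0.le (by norm_num)
    linarith
  have hsq : (μ * q ^ 2) ^ 2 ≤ ((1 - 32 * (q * q)) / 32) ^ 2 := pow_le_pow_left₀ hμq0 hμq 2
  rcases le_total q (1 / 32) with hc | hc
  · refine ⟨1 + 1 / (32 * q), by positivity, Or.inr ⟨1 / (32 * q), by positivity, rfl, ?_⟩, ?_⟩
    · rw [div_pow, div_le_div_iff₀ h1q2 (by positivity)]
      have h2 : q ^ 2 * μ ^ 2 * (32 * q) ^ 2 = 1024 * (μ * q ^ 2) ^ 2 := by ring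
      rw [h2]
      have h3 : 1024 * ((1 - 32 * (q * q)) / 32) ^ 2 = (1 - 32 * (q * q)) ^ 2 := by ring
      nlinarith
    · apply num_comb hq0 hμ hpq (by positivity) (w' := q + 1 / 32) _ (num_two hq0 hc) hT
      rw [mul_add, mul_one]
      apply add_le_add_right
      refine le_of_eq ?_
      field_simp
  · refine ⟨1 + q ^ 2 * μ ^ 2 / (1 - q ^ 2), by positivity, Or.inl rfl, ?_⟩
    have h2 := num_one hc hq1
    have e : (2 - q) / ((1 - q) * (1 - q)) = hq q := by unfold hq; rw [sq (1 - q)]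
    rw [e] at h2
    apply num_comb hq0 hμ hpq (by positivity) _ h2 hT
    rw [mul_add, mul_one]
    apply add_le_add_right
    rw [show q * (q ^ 2 * μ ^ 2 / (1 - q ^ 2)) = (μ * q ^ 2) ^ 2 / (q * (1 - q * q)) by
      rw [← sq]; field_simp,
      show (1 - 32 * (q * q)) * (1 - 32 * (q * q)) / (1024 * q * (1 - q * q)) =
        ((1 - 32 * (q * q)) / 32) ^ 2 / (q * (1 - q * q)) by
      have : 1 - q * q ≠ 0 := by rw [← sq]; exact h1q2.ne'
      field_simp; ring]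
    apply div_le_div_of_nonneg_right hsq
    have : 0 < 1 - q * q := by rw [← sq]; exact h1q2
    positivity

end Pool.Agent.H12.DP
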