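import Mathlib

/-!
# A second order inequality for `|1 - y| ^ (2 p)`
-/

open Complex Set Filter Topology

namespace Pool.Agent.H12.DP

theorem rpow_quad_le {n r Y p : ℝ} (hp : 1 ≤ p) (hY0 : 0 ≤ Y) (hY1 : Y < 1) (hn : n ≤ Y ^ 2)
    (hr : r ^ 2 ≤ n) :
    (1 - 2 * r + n) ^ p ≤ 1 - 2 * p * r + (2 * p ^ 2 - p) * n * (1 + Y) ^ (2 * p - 2) := by
  have hn0 : 0 ≤ n := (sq_nonneg r).trans hr
  have hrY : |r| ≤ Y := abs_le_of_sq_le_sq (hr.trans hn) hY0
  have hr1 := abs_le.1 hrY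
  set A : ℝ := (2 * p ^ 2 - p) * n * (1 + Y) ^ (2 * p - 2) with hA
  set N : ℝ → ℝ := fun s => 1 - 2 * s * r + s ^ 2 * n with hN
  set N' : ℝ → ℝ := fun s => -2 * r + 2 * s * n with hN'
  have hNpos : ∀ s ∈ Icc (0:ℝ) 1, 0 < N s := by
    intro s hs
    have h1 : (1 - s * Y) ^ 2 ≤ N s + s ^ 2 * (Y ^ 2 - n) + 2 * s * (r - Y) + 0 := by
      simp only [hN]; nlinarith
    have h2 : N s - (1 - s * r) ^ 2 = s ^ 2 * (n - r ^ 2) := by simp only [hN]; ring
    have h3 : 0 ≤ s ^ 2 * (n - r ^ 2) := mul_nonneg (sq_nonneg _) (by linarith)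
    have h4 : 0 < 1 - s * r := by nlinarith [hs.1, hs.2]
    nlinarith
  have hNle : ∀ s ∈ Icc (0:ℝ) 1, N s ≤ (1 + Y) ^ 2 := by
    intro s hs
    simp only [hN]
    have h1 : s ^ 2 * n ≤ Y ^ 2 := by
      have : s ^ 2 ≤ 1 := by nlinarith [hs.1, hs.2]
      nlinarith
    have h2 : -(s * r) ≤ Y := by nlinarith [hs.1, hs.2]
    nlinarith
  have hdN : ∀ s, HasDerivAt N (N' s) s := by
    intro s
    have h1 : HasDerivAt (fun s : ℝ => 1 - 2 * s * r + s ^ 2 * n)
        (0 - 2 * 1 * r + (2 : ℕ) * s ^ (2 - 1) * 1 * n) s :=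
      ((hasDerivAt_const s (1:ℝ)).sub (((hasDerivAt_id s).const_mul 2).mul_const r)).add
        (((hasDerivAt_id s).pow 2).mul_const n)
    refine h1.congr_deriv ?_
    simp only [hN']; push_cast; ring
  have hdN' : ∀ s, HasDerivAt N' (2 * n) s := by
    intro s
    have h1 : HasDerivAt (fun s : ℝ => -2 * r + 2 * s * n) (2 * 1 * n) s :=
      (((hasDerivAt_id s).const_mul 2).mul_const n).const_add _
    refine h1.congr_deriv ?_
    ring
  set ψ : ℝ → ℝ := fun s => 1 - 2 * p * r * s + A * s ^ 2 - N s ^ p with hψ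
  set ψ' : ℝ → ℝ := fun s => -(2 * p * r) + 2 * A * s - N' s * p * N s ^ (p - 1) with hψ'
  have hd1 : ∀ s ∈ Icc (0:ℝ) 1, HasDerivAt ψ (ψ' s) s := by
    intro s hs
    have h1 := (hdN s).rpow_const (p := p) (Or.inl (hNpos s hs).ne')
    have h2 : HasDerivAt (fun s : ℝ => 1 - 2 * p * r * s + A * s ^ 2 - N s ^ p)
        (0 - 2 * p * r * 1 + A * ((2 : ℕ) * s ^ (2 - 1) * 1) - N' s * p * N s ^ (p - 1)) s :=
      (((hasDerivAt_const s (1:ℝ)).sub ((hasDerivAt_id s).const_mul _)).add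
        (((hasDerivAt_id s).pow 2).const_mul A)).sub h1
    refine h2.congr_deriv ?_
    simp only [hψ']; push_cast; ring
  have hd2 : ∀ s ∈ Icc (0:ℝ) 1, HasDerivAt ψ' (2 * A - ((2 * n) * p * N s ^ (p - 1) +
      N' s * p * (N' s * (p - 1) * N s ^ (p - 1 - 1)))) s := by
    intro s hs
    have h1 := (hdN s).rpow_const (p := p - 1) (Or.inl (hNpos s hs).ne')
    have h2 := ((hdN' s).mul_const p).mul h1
    have h3 : HasDerivAt (fun s : ℝ => -(2 * p * r) + 2 * A * s) (2 * A * 1) s :=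
      ((hasDerivAt_id s).const_mul _).const_add _
    refine (h3.sub h2).congr_deriv ?_
    ring
  have hpos2 : ∀ s ∈ Icc (0:ℝ) 1, 0 ≤ 2 * A - ((2 * n) * p * N s ^ (p - 1) +
      N' s * p * (N' s * (p - 1) * N s ^ (p - 1 - 1))) := by
    intro s hs
    have hNs := hNpos s hs
    have h1 : N s ^ (p - 1 - 1) * N s = N s ^ (p - 1) := by
      rw [← Real.rpow_add_one hNs.ne']; congr 1; ring
    have h2 : N' s ^ 2 ≤ 4 * n * N s := by
      simp only [hN, hN']
      nlinarith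
    have h3 : 0 ≤ N s ^ (p - 1 - 1) := (Real.rpow_pos_of_pos hNs _).le
    have h4 : N s ^ (p - 1) ≤ (1 + Y) ^ (2 * p - 2) := by
      have h5 : N s ^ (p - 1) ≤ ((1 + Y) ^ 2) ^ (p - 1) :=
        Real.rpow_le_rpow hNs.le (hNle s hs) (by linarith)
      refine h5.trans (le_of_eq ?_)
      rw [← Real.rpow_natCast, ← Real.rpow_mul (by linarith)]
      congr 1; push_cast; ring
    have h6 : N' s * p * (N' s * (p - 1) * N s ^ (p - 1 - 1)) ≤
        4 * n * (p * (p - 1)) * N s ^ (p - 1) := by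
      have h7 : N' s ^ 2 * ((p * (p - 1)) * N s ^ (p - 1 - 1)) ≤
          4 * n * N s * ((p * (p - 1)) * N s ^ (p - 1 - 1)) :=
        mul_le_mul_of_nonneg_right h2 (mul_nonneg (mul_nonneg (by linarith) (by linarith)) h3)
      calc N' s * p * (N' s * (p - 1) * N s ^ (p - 1 - 1)) =
          N' s ^ 2 * ((p * (p - 1)) * N s ^ (p - 1 - 1)) := by ring
        _ ≤ _ := h7
        _ = 4 * n * (p * (p - 1)) * (N s ^ (p - 1 - 1) * N s) := by ring
        _ = _ := by rw [h1]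
    have h8 : (4 * p ^ 2 - 2 * p) * n * N s ^ (p - 1) ≤ 2 * A := by
      have : (4 * p ^ 2 - 2 * p) * n * N s ^ (p - 1) ≤
          (4 * p ^ 2 - 2 * p) * n * (1 + Y) ^ (2 * p - 2) :=
        mul_le_mul_of_nonneg_left h4 (mul_nonneg (by nlinarith) hn0)
      refine this.trans (le_of_eq ?_)
      rw [hA]; ring
    have h9 : (2 * n) * p * N s ^ (p - 1) + 4 * n * (p * (p - 1)) * N s ^ (p - 1) =
        (4 * p ^ 2 - 2 * p) * n * N s ^ (p - 1) := by ring
    linarith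
  have hm1 : MonotoneOn ψ' (Icc 0 1) := by
    apply monotoneOn_of_deriv_nonneg (convex_Icc 0 1)
    · exact fun s hs => (hd2 s hs).continuousAt.continuousWithinAt
    · exact fun s hs => (hd2 s (interior_subset hs)).differentiableAt.differentiableWithinAt
    · intro s hs
      rw [(hd2 s (interior_subset hs)).deriv]
      exact hpos2 s (interior_subset hs)
  have hψ'0 : ψ' 0 = 0 := by simp only [hψ', hN', hN]; norm_num; ring
  have hm2 : MonotoneOn ψ (Icc 0 1) := by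
    apply monotoneOn_of_deriv_nonneg (convex_Icc 0 1)
    · exact fun s hs => (hd1 s hs).continuousAt.continuousWithinAt
    · exact fun s hs => (hd1 s (interior_subset hs)).differentiableAt.differentiableWithinAt
    · intro s hs
      rw [(hd1 s (interior_subset hs)).deriv, ← hψ'0]
      exact hm1 (by simp) (interior_subset hs) (interior_subset hs).1
  have h := hm2 (by simp : (0:ℝ) ∈ Icc (0:ℝ) 1) (by simp : (1:ℝ) ∈ Icc (0:ℝ) 1) zero_le_one
  have e0 : ψ 0 = 0 := by simp only [hψ, hN]; norm_num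
  have e1 : ψ 1 = 1 - 2 * p * r + A - (1 - 2 * r + n) ^ p := by
    simp only [hψ, hN]; norm_num
  rw [e0, e1] at h
  linarith

theorem norm_one_sub_rpow_le {y : ℂ} {Y p : ℝ} (hp : 1 ≤ p) (hy : ‖y‖ ≤ Y) (hY : Y < 1) :
    ‖1 - y‖ ^ (2 * p) ≤
      1 - 2 * p * y.re + (2 * p ^ 2 - p) * ‖y‖ ^ 2 * (1 + Y) ^ (2 * p - 2) := by
  have h1 : ‖1 - y‖ ^ 2 = 1 - 2 * y.re + ‖y‖ ^ 2 := by
    rw [← normSq_eq_norm_sq, ← normSq_eq_norm_sq, normSq_apply, normSq_apply]
    simp; ring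
  have h2 := rpow_quad_le (n := ‖y‖ ^ 2) (r := y.re) hp ((norm_nonneg y).trans hy) hY
    (pow_le_pow_left₀ (norm_nonneg y) hy 2) (by
      rw [← sq_abs]; exact pow_le_pow_left₀ (abs_nonneg _) (abs_re_le_norm y) 2)
  rw [← h1] at h2
  refine le_trans (le_of_eq ?_) h2
  rw [← Real.rpow_natCast ‖1 - y‖ 2, ← Real.rpow_mul (norm_nonneg _)]
  norm_num

end Pool.Agent.H12.DP
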