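import Pool.Agent.H12.DP.Lt
import Pool.Agent.H12.DP.Pt
import Pool.Agent.H12.DP.Nb
import Pool.Agent.H15.DP.Fin

/-!
# The derivative for `p ≥ 1`, `p x ^ 4 ≤ 1/32`
-/

open Complex Set Filter Topology MeasureTheory
open scoped ComplexConjugate Real

namespace Pool.Agent.H12.DP

open Pool.Agent.H15.Sig

variable {F : ℂ → ℂ} {b : ℕ → ℂ} {β : ℝ}

theorem int_Sp (p : ℝ) {β x : ℝ} (hβ0 : 0 ≤ β) (hβ : β ≤ 1) (hx0 : 0 ≤ x) (hx : x < 1) :
    ∫ t in (-π)..π, ‖Sp p β (x * ec t)‖ ^ 2 = Mo p (β * x ^ 2) := by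
  have hβ' : |β| ≤ 1 := by rw [abs_of_nonneg hβ0]; exact hβ
  have hX0 : 0 ≤ β * x ^ 2 := by positivity
  have hX : β * x ^ 2 < 1 := by nlinarith
  have h1 := (rep_S p hβ').parseval_self hx0 hx
  rw [← Function.Injective.hasSum_iff inj_two] at h1
  · refine h1.unique ?_
    refine (Mo_hasSum p hX0 hX).congr_fun ?_ |> fun h => h
    intro k
    simp only [Function.comp, PowerSeries.coeff_mk, sc_two, choose_eq]
    rw [norm_real, norm_real, Real.norm_eq_abs, Real.norm_eq_abs, sq_abs, sq_abs, mul_pow β,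
      mul_pow (bc p k), neg_pow β, mul_pow, ← pow_mul x, ← pow_mul, ← pow_mul β]
    have : ((-1 : ℝ)) ^ (k * 2) = 1 := by rw [mul_comm, pow_mul]; norm_num
    rw [this, mul_comm k 2]
    ring
  · intro n hn
    rw [PowerSeries.coeff_mk, sc_odd p β (not_range hn)]
    simp

theorem Mo_eq_bc (μ : ℝ) {X : ℝ} (hX0 : 0 ≤ X) (hX : X < 1) :
    Mo μ X = 2 * π * ∑' k : ℕ, bc μ k ^ 2 * X ^ (2 * k) := by
  rw [← (Mo_hasSum μ hX0 hX).tsum_eq, ← tsum_mul_left]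
  apply tsum_congr
  intro k
  rw [choose_eq, norm_real, Real.norm_eq_abs, sq_abs]
  ring

theorem S_ge {β x : ℝ} (hβ0 : 0 ≤ β) (hβ : β ≤ 1) (hx0 : 0 ≤ x) (t : ℝ) :
    1 - x ^ 2 ≤ ‖1 - (β : ℂ) * (x * ec t) ^ 2‖ := by
  have h1 : ‖(β : ℂ) * (x * ec t) ^ 2‖ ≤ x ^ 2 := by
    rw [norm_mul, norm_pow, norm_mul_ec hx0, norm_real, Real.norm_eq_abs, abs_of_nonneg hβ0]
    nlinarith [sq_nonneg x]
  have h2 := norm_sub_norm_le (1 : ℂ) ((β : ℂ) * (x * ec t) ^ 2)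
  rw [norm_one] at h2
  linarith

/-- the integral inequality with the linear and the quadratic term -/
theorem int_D_le (h : Nrm F b β) {μ x Y G2 : ℝ} (hμ : 0 ≤ μ) (hx0 : 0 ≤ x) (hx : x < 1)
    (hY : Y < 1) (hY0 : 0 ≤ Y) (hG : ∀ t : ℝ, ‖Gd b β (x * ec t)‖ ^ 2 ≤ G2)
    (hGY : G2 ≤ (Y * (1 - x ^ 2)) ^ 2) :
    ∫ t in (-π)..π, ‖1 - (x * ec t) * (deriv (pw b) (x * ec t) * (x * ec t))‖ ^ (2 * (μ + 1)) ≤
      Mo (μ + 1) (β * x ^ 2) - 2 * (μ + 1) * (Tn (μ + 1) β x b).re +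
      (2 * (μ + 1) ^ 2 - (μ + 1)) * (1 + Y) ^ (2 * μ) * G2 * Mo μ (β * x ^ 2) := by
  have hβ0 := h.nn
  have hβ1 := h.beta_le
  have hβ' : |β| ≤ 1 := by rw [abs_of_nonneg hβ0]; exact hβ1
  have hx2 : x ^ 2 < 1 := by nlinarith
  have hc1 : Continuous fun t : ℝ => Sp (μ + 1) β (x * ec t) :=
    (rep_S (μ + 1) hβ').continuous_circle hx0 hx
  have hc2 : Continuous fun t : ℝ => Sp μ β (x * ec t) := (rep_S μ hβ').continuous_circle hx0 hx
  have hc3 : Continuous fun t : ℝ => Gd b β (x * ec t) := (rep_Gd h).continuous_circle hx0 hx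
  have hcD : Continuous fun t : ℝ =>
      ‖1 - (x * ec t) * (deriv (pw b) (x * ec t) * (x * ec t))‖ ^ (2 * (μ + 1)) := by
    have e : (fun t : ℝ => ‖1 - (x * ec t) * (deriv (pw b) (x * ec t) * (x * ec t))‖ ^
        (2 * (μ + 1))) = fun t : ℝ =>
        ‖(1 - (β : ℂ) * (x * ec t) ^ 2) - Gd b β (x * ec t)‖ ^ (2 * (μ + 1)) := by
      funext t
      congr 2
      unfold Gd; ring
    rw [e]
    apply Continuous.rpow_const
    · have := continuous_ec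
      exact ((continuous_const.sub (by fun_prop)).sub hc3).norm
    · intro t; right; linarith
  have hpt : ∀ t : ℝ,
      ‖1 - (x * ec t) * (deriv (pw b) (x * ec t) * (x * ec t))‖ ^ (2 * (μ + 1)) ≤
      ‖Sp (μ + 1) β (x * ec t)‖ ^ 2 - 2 * (μ + 1) *
        ((conj (Sp (μ + 1) β (x * ec t)) * Sp μ β (x * ec t)) * Gd b β (x * ec t)).re +
      (2 * (μ + 1) ^ 2 - (μ + 1)) * (1 + Y) ^ (2 * μ) * G2 * ‖Sp μ β (x * ec t)‖ ^ 2 := by
    intro t
    set u : ℂ := x * ec t with hu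
    set S : ℂ := 1 - (β : ℂ) * u ^ 2 with hS
    have hSge : 1 - x ^ 2 ≤ ‖S‖ := S_ge hβ0 hβ1 hx0 t
    have hSpos : 0 < ‖S‖ := by linarith
    have hS0 : S ≠ 0 := norm_pos_iff.1 hSpos
    have hG' := hG t
    rw [← hu] at hG'
    set G : ℂ := Gd b β u with hGd
    have hD : 1 - u * (deriv (pw b) u * u) = S * (1 - G / S) := by
      rw [mul_sub, mul_div_cancel₀ _ hS0, mul_one, hS, hGd]
      unfold Gd; ring
    have hGn : ‖G‖ ≤ Y * (1 - x ^ 2) := by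
      apply le_of_sq_le_sq (hG'.trans hGY)
      exact mul_nonneg hY0 (by linarith)
    have hy : ‖G / S‖ ≤ Y := by
      rw [norm_div, div_le_iff₀ hSpos]
      exact hGn.trans (mul_le_mul_of_nonneg_left hSge hY0)
    have h1 := norm_one_sub_rpow_le (p := μ + 1) (by linarith) hy hY
    have e0 : ‖Sp (μ + 1) β u‖ = ‖S‖ ^ (μ + 1) := norm_cpow_real _ _
    have e0' : ‖Sp μ β u‖ = ‖S‖ ^ μ := norm_cpow_real _ _
    have e1 : ‖Sp (μ + 1) β u‖ ^ 2 = ‖S‖ ^ (2 * (μ + 1)) := by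
      rw [e0, ← Real.rpow_natCast, ← Real.rpow_mul (norm_nonneg _)]
      congr 1; push_cast; ring
    have e2 : ‖Sp μ β u‖ ^ 2 = ‖S‖ ^ (2 * μ) := by
      rw [e0', ← Real.rpow_natCast, ← Real.rpow_mul (norm_nonneg _)]
      congr 1; push_cast; ring
    have e3 : Sp (μ + 1) β u = Sp μ β u * S := by
      unfold Sp
      rw [← hS]
      push_cast
      rw [cpow_add _ _ hS0, cpow_one]
    have e4 : conj (Sp (μ + 1) β u) * Sp μ β u = ((‖Sp (μ + 1) β u‖ ^ 2 : ℝ) : ℂ) / S := by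
      rw [eq_div_iff hS0, mul_assoc, ← e3, Complex.conj_mul']
      push_cast; rfl
    have e5 : ((conj (Sp (μ + 1) β u) * Sp μ β u) * G).re =
        ‖S‖ ^ (2 * (μ + 1)) * (G / S).re := by
      rw [e4, e1, div_mul_eq_mul_div, mul_div_assoc, re_ofReal_mul]
    have e6 : ‖S‖ ^ (2 * (μ + 1)) = ‖S‖ ^ (2 * μ) * ‖S‖ ^ 2 := by
      rw [← Real.rpow_natCast, ← Real.rpow_add hSpos]
      congr 1; push_cast; ring
    have e7 : ‖S‖ ^ (2 * (μ + 1)) * ‖G / S‖ ^ 2 = ‖S‖ ^ (2 * μ) * ‖G‖ ^ 2 := by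
      rw [e6, norm_div, div_pow]
      have : ‖S‖ ^ 2 ≠ 0 := by positivity
      field_simp
    have h2 : 0 ≤ ‖S‖ ^ (2 * (μ + 1)) := Real.rpow_nonneg (norm_nonneg _) _
    have h2' : 0 ≤ ‖S‖ ^ (2 * μ) := Real.rpow_nonneg (norm_nonneg _) _
    have h3 := mul_le_mul_of_nonneg_left h1 h2
    rw [hD, norm_mul, Real.mul_rpow (norm_nonneg _) (norm_nonneg _), e5, e1, e2]
    refine h3.trans ?_
    have e8 : 2 * (μ + 1) - 2 = 2 * μ := by ring
    rw [e8]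
    have h4 : 0 ≤ (2 * (μ + 1) ^ 2 - (μ + 1)) * (1 + Y) ^ (2 * μ) := by
      apply mul_nonneg
      · nlinarith
      · exact Real.rpow_nonneg (by linarith) _
    have h5 : ‖S‖ ^ (2 * μ) * ‖G‖ ^ 2 ≤ ‖S‖ ^ (2 * μ) * G2 :=
      mul_le_mul_of_nonneg_left hG' h2'
    have h6 := mul_le_mul_of_nonneg_left h5 h4
    rw [← e7] at h6
    have e9 : ‖S‖ ^ (2 * (μ + 1)) * (1 - 2 * (μ + 1) * (G / S).re +
        (2 * (μ + 1) ^ 2 - (μ + 1)) * ‖G / S‖ ^ 2 * (1 + Y) ^ (2 * μ)) =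
        ‖S‖ ^ (2 * (μ + 1)) - 2 * (μ + 1) * (‖S‖ ^ (2 * (μ + 1)) * (G / S).re) +
        (2 * (μ + 1) ^ 2 - (μ + 1)) * (1 + Y) ^ (2 * μ) *
          (‖S‖ ^ (2 * (μ + 1)) * ‖G / S‖ ^ 2) := by ring
    rw [e9]
    linarith
  have hle : (-π) ≤ π := by linarith [Real.pi_pos]
  have hcT : Continuous fun t : ℝ =>
      ((conj (Sp (μ + 1) β (x * ec t)) * Sp μ β (x * ec t)) * Gd b β (x * ec t)) :=
    ((continuous_conj.comp hc1).mul hc2).mul hc3
  have hi1 : IntervalIntegrable (fun t : ℝ => ‖Sp (μ + 1) β (x * ec t)‖ ^ 2) volume (-π) π :=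
    (hc1.norm.pow 2).intervalIntegrable _ _
  have hi2 : IntervalIntegrable (fun t : ℝ => 2 * (μ + 1) *
        ((conj (Sp (μ + 1) β (x * ec t)) * Sp μ β (x * ec t)) * Gd b β (x * ec t)).re)
        volume (-π) π :=
    (continuous_const.mul (continuous_re.comp hcT)).intervalIntegrable _ _
  have hi3 : IntervalIntegrable (fun t : ℝ => (2 * (μ + 1) ^ 2 - (μ + 1)) * (1 + Y) ^ (2 * μ) *
      G2 * ‖Sp μ β (x * ec t)‖ ^ 2) volume (-π) π :=
    (continuous_const.mul (hc2.norm.pow 2)).intervalIntegrable _ _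
  have h7 := intervalIntegral.integral_mono_on hle (hcD.intervalIntegrable _ _)
    ((hi1.sub hi2).add hi3) (fun t _ => hpt t)
  refine h7.trans (le_of_eq ?_)
  rw [intervalIntegral.integral_add (hi1.sub hi2) hi3, intervalIntegral.integral_sub hi1 hi2,
    intervalIntegral.integral_const_mul, intervalIntegral.integral_const_mul,
    int_Sp (μ + 1) hβ0 hβ1 hx0 hx, int_Sp μ hβ0 hβ1 hx0 hx]
  have e10 : (∫ t in (-π)..π,
      ((conj (Sp (μ + 1) β (x * ec t)) * Sp μ β (x * ec t)) * Gd b β (x * ec t)).re) =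
      (Tn (μ + 1) β x b).re := by
    unfold Tn
    rw [add_sub_cancel_right]
    have := hcT.intervalIntegrable (μ := volume) (-π) π
    rw [intervalIntegral.integral_of_le hle, intervalIntegral.integral_of_le hle]
    exact integral_re ((intervalIntegrable_iff_integrableOn_Ioc_of_le hle).1 this)
  rw [e10]

end Pool.Agent.H12.DP
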