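import Pool.Agent.H12.DP.Cb

/-!
# The derivative for `p ≥ 1`, `p x ^ 4 ≤ 1/32`: the strict inequality
-/

open Complex Set Filter Topology MeasureTheory
open scoped ComplexConjugate Real

namespace Pool.Agent.H12.DP

open Pool.Agent.H15.Sig

variable {F : ℂ → ℂ} {b : ℕ → ℂ} {β : ℝ}

theorem s2_le {μ q X : ℝ} (hX0 : 0 ≤ X) (hXq : X ≤ q) (hq1 : q < 1) :
    s2 μ X ≤ q ^ 2 * μ ^ 2 / (1 - q ^ 2) := by
  unfold s2
  have h1 : 0 < 1 - q ^ 2 := by nlinarith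
  have h2 : X ^ 2 ≤ q ^ 2 := pow_le_pow_left₀ hX0 hXq 2
  apply div_le_div₀ (by positivity) _ h1 (by linarith)
  exact mul_le_mul_of_nonneg_right h2 (sq_nonneg μ)

theorem case_B (h : Nrm F b β) {μ x : ℝ} (hμ : 0 ≤ μ) (hx0 : 0 < x)
    (hpx : (μ + 1) * x ^ 4 ≤ 1 / 32) (hβ : β < 1)
    (hB : 1 - β < x ^ 2 * (2 - x ^ 2) / (1 - x ^ 2) ^ 2 * (1 + β)) :
    ∫ t in (-π)..π, ‖1 - (x * ec t) * (deriv (pw b) (x * ec t) * (x * ec t))‖ ^ (2 * (μ + 1)) <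
      Mo (μ + 1) (x ^ 2) := by
  have hβ0 := h.nn
  have hβ2 : 2 * β ^ 2 ≤ 1 + β := by nlinarith
  have hβ3 : 0 ≤ 1 - β ^ 2 := by nlinarith
  have hμ2 : 0 ≤ 2 * (μ + 1) ^ 2 - (μ + 1) := by nlinarith
  have hπ := Real.pi_pos
  set q := x ^ 2 with hqx
  have hq0 : 0 < q := by rw [hqx]; positivity
  have hpq : (μ + 1) * q ^ 2 ≤ 1 / 32 := by rw [hqx, ← pow_mul]; exact hpx
  have hq1 : q ≤ 9 / 50 := q_le hq0 hμ hpq
  have hx1 : x < 1 := by
    have : x ^ 2 < 1 := by rw [← hqx]; linarith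
    nlinarith
  have hh0 := hq_pos hq1
  have hh1 := hq_le hq0 hq1
  have h1q : 0 < 1 - q := by linarith
  have h1q2 : 0 < 1 - q ^ 2 := by
    have h0 : q ^ 2 ≤ (9 / 50) ^ 2 := pow_le_pow_left₀ hq0.le hq1 2
    linarith
  set X := β * q with hX
  have hX0 : 0 ≤ X := mul_nonneg hβ0 hq0.le
  have hXq : X ≤ q := by rw [hX]; nlinarith
  have hX1 : X < 1 := by linarith
  set Y : ℝ := 2 * q ^ 2 * hq q / (1 - q) with hY
  have hY0 : 0 ≤ Y := by rw [hY]; positivity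
  have hY1 : Y < 1 := by
    rw [hY, div_lt_one h1q]
    have : q ^ 2 ≤ (9 / 50) ^ 2 := pow_le_pow_left₀ hq0.le hq1 2
    nlinarith
  set G2 : ℝ := (1 - β ^ 2) * (q ^ 3 * (2 - q) / (1 - q) ^ 2) with hG2
  have hG2e : G2 = (1 - β ^ 2) * (q ^ 3 * hq q) := by rw [hG2]; unfold hq; ring
  have hB' : 1 - β < q * hq q * (1 + β) := by
    refine lt_of_lt_of_le hB (le_of_eq ?_)
    unfold hq; ring
  have hGY : G2 ≤ (Y * (1 - q)) ^ 2 := by
    have e : (Y * (1 - q)) ^ 2 = 4 * (q * hq q) * (q ^ 3 * hq q) := by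
      rw [hY]; field_simp; ring
    rw [e, hG2e]
    apply mul_le_mul_of_nonneg_right _ (by positivity)
    have h1 : (1 - β ^ 2) = (1 - β) * (1 + β) := by ring
    rw [h1]
    have h2 : (1 - β) * (1 + β) ≤ q * hq q * (1 + β) * (1 + β) :=
      mul_le_mul_of_nonneg_right hB'.le (by linarith)
    have h3 : (1 + β) * (1 + β) ≤ 4 := by nlinarith
    have h4 : 0 ≤ q * hq q := by positivity
    nlinarith
  have hI := int_D_le h hμ hx0.le hx1 hY1 hY0 (G2 := G2)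
    (fun t => Gd_le h hx0.le hx1 (norm_mul_ec hx0.le t)) hGY
  have hM : (x ^ 2) ^ 2 * max μ 1 ≤ 1 / 32 := by
    rw [← hqx]
    rcases max_choice μ 1 with h1 | h1
    · rw [h1]; nlinarith [sq_nonneg q]
    · rw [h1]; nlinarith [mul_nonneg hμ (sq_nonneg q)]
  have hT := Tn_le h hμ hx0.le hx1 hM
  rw [← hqx, ← hX] at hT hI
  have hW1 := W1_ge_one (μ := μ) hX0 hX1
  have hgain := gain (p := μ + 1) (X := q) hq0.le (by linarith) hβ0 hβ.le
  rw [add_sub_cancel_right, ← hX] at hgain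
  obtain ⟨w, hw0, hw, hnum⟩ := num_final hq0 hμ hpq
  have hMo : Mo μ X ≤ 2 * π * (w * W1 μ X) := by
    rw [Mo_eq_bc μ hX0 hX1]
    apply mul_le_mul_of_nonneg_left _ (by positivity)
    have hs := s2_le (μ := μ) hX0 hXq (by linarith)
    rcases hw with hw | ⟨θ, hθ, hw, hs2⟩
    · refine (W0_le hμ hX0 hX1).trans ?_
      rw [hw]
      apply mul_le_mul_of_nonneg_right _ (by linarith)
      linarith
    · rw [hw]
      exact W0_le' hμ hX0 hX1 hθ (hs.trans hs2)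
  -- combine
  set W := W1 μ X with hWd
  set E := (1 + Y) ^ (2 * μ) with hE
  have hE0 : 0 < E := Real.rpow_pos_of_pos (by linarith) _
  have hp0 : 0 < μ + 1 := by linarith
  have hτ : X ^ 2 / (3 * (1 - X ^ 2)) ≤ q ^ 2 / (3 * (1 - q ^ 2)) := by
    have h2 : X ^ 2 ≤ q ^ 2 := pow_le_pow_left₀ hX0 hXq 2
    exact div_le_div₀ (by positivity) h2 (by positivity) (by linarith)
  set L := 27 * q ^ 2 * (μ / 2 + q ^ 2 / (3 * (1 - q ^ 2))) + 125 / 928 with hL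
  have hL' : 27 * q ^ 2 * (μ / 2 + X ^ 2 / (3 * (1 - X ^ 2))) + 125 / 928 ≤ L := by
    rw [hL]
    have := mul_le_mul_of_nonneg_left hτ (by positivity : 0 ≤ 27 * q ^ 2)
    linarith
  have hL0 : 0 ≤ L := by
    rw [hL]; positivity
  set K := 2 * π * ((μ + 1) ^ 2 * q ^ 2 * W) with hK
  have hK0 : 0 < K := by rw [hK]; positivity
  -- linear term
  have h1 : -(2 * (μ + 1) * (Tn (μ + 1) β x b).re) ≤ K * (1 - β) * ((1 + β) * L) := by
    have h2 := neg_abs_le (Tn (μ + 1) β x b).re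
    have h3 : |(Tn (μ + 1) β x b).re| ≤
        2 * π * ((1 - β) * β ^ 2 * q ^ 2 * ((μ + 1) * W)) * L := by
      refine hT.trans (mul_le_mul_of_nonneg_left hL' ?_)
      have : 0 ≤ 1 - β := by linarith
      positivity
    have h4 : 2 * (μ + 1) * |(Tn (μ + 1) β x b).re| ≤
        2 * (μ + 1) * (2 * π * ((1 - β) * β ^ 2 * q ^ 2 * ((μ + 1) * W)) * L) :=
      mul_le_mul_of_nonneg_left h3 (by positivity)
    have h5 : 2 * (μ + 1) * (2 * π * ((1 - β) * β ^ 2 * q ^ 2 * ((μ + 1) * W)) * L) =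
        K * (1 - β) * (2 * β ^ 2 * L) := by rw [hK]; ring
    have h6 : K * (1 - β) * (2 * β ^ 2 * L) ≤ K * (1 - β) * ((1 + β) * L) := by
      apply mul_le_mul_of_nonneg_left _ (mul_nonneg hK0.le (by linarith))
      exact mul_le_mul_of_nonneg_right hβ2 hL0
    have h7 := mul_le_mul_of_nonneg_left h2 (by positivity : 0 ≤ 2 * (μ + 1))
    linarith
  -- quadratic term
  have h2 : (2 * (μ + 1) ^ 2 - (μ + 1)) * E * G2 * Mo μ X ≤
      K * (1 - β) * ((1 + β) * ((2 - 1 / (μ + 1)) * E * (q * hq q * w))) := by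
    have h3 : 0 ≤ (2 * (μ + 1) ^ 2 - (μ + 1)) * E * G2 := by
      apply mul_nonneg (mul_nonneg hμ2 hE0.le)
      rw [hG2e]
      exact mul_nonneg hβ3 (by positivity)
    refine (mul_le_mul_of_nonneg_left hMo h3).trans (le_of_eq ?_)
    rw [hG2e, hK]
    have : μ + 1 ≠ 0 := hp0.ne'
    field_simp
    ring
  have h3 : K * (1 - β) * ((1 + β) * L) +
      K * (1 - β) * ((1 + β) * ((2 - 1 / (μ + 1)) * E * (q * hq q * w))) <
      2 * π * ((μ + 1) ^ 2 * q ^ 2 * (1 - β ^ 2) * W) := by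
    have e : 2 * π * ((μ + 1) ^ 2 * q ^ 2 * (1 - β ^ 2) * W) = K * (1 - β) * ((1 + β) * 1) := by
      rw [hK]; ring
    rw [e, ← mul_add, ← mul_add]
    apply mul_lt_mul_of_pos_left _ (mul_pos hK0 (by linarith))
    exact mul_lt_mul_of_pos_left hnum (by linarith)
  linarith

/-- the derivative, `p ≥ 1` -/
theorem intD_three {p x : ℝ} (hp : 1 ≤ p) (hx0 : 0 < x) (_hx : x ≤ 1 / 2)
    (hpx : p * x ^ 4 ≤ 1 / 32) : Pool.Agent.H15.DP.IntD p x := by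
  obtain ⟨μ, rfl⟩ : ∃ μ, p = μ + 1 := ⟨p - 1, by ring⟩
  have hμ : 0 ≤ μ := by linarith
  apply Pool.Agent.H15.DP.IntD_of_lt hx0.le (by linarith)
  intro F b β h hβ
  rcases lt_or_ge (1 - β) (x ^ 2 * (2 - x ^ 2) / (1 - x ^ 2) ^ 2 * (1 + β)) with hB | hA
  · exact case_B h hμ hx0 hpx hβ hB
  · have hx2 : x ^ 2 ≤ 2 / 3 := by nlinarith
    exact h.caseA (by linarith) hx0 hx2 hA hβ

end Pool.Agent.H12.DP
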