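import Pool.Agent.H12.DP.Mm
import Pool.Agent.H46.RD.Cb

/-!
# The linear term and the size of `G = Σ_(n ≥ 2) n b_n u ^ (n + 1)`
-/

open Complex Set Filter Topology MeasureTheory
open scoped ComplexConjugate Real

namespace Pool.Agent.H12.DP

open Pool.Agent.H15.Sig

variable {F : ℂ → ℂ} {b : ℕ → ℂ} {β : ℝ}

/-- `S - F'` -/
noncomputable def Gd (b : ℕ → ℂ) (β : ℝ) (u : ℂ) : ℂ := u * (deriv (pw b) u * u) - (β : ℂ) * u ^ 2

/-- its coefficients -/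
noncomputable def gd (b : ℕ → ℂ) (n : ℕ) : ℂ := if n < 3 then 0 else ((n - 1 : ℕ) : ℂ) * b (n - 1)

theorem gd_add (b : ℕ → ℂ) (k : ℕ) : gd b (k + 3) = ((k + 2 : ℕ) : ℂ) * b (k + 2) := by
  unfold gd
  rw [if_neg (by omega)]
  rfl

theorem Gd_hasSum (h : Nrm F b β) {u : ℂ} (hu : ‖u‖ < 1) :
    HasSum (fun k => gd b (k + 3) * u ^ (k + 3)) (Gd b β u) := by
  have h1 := (h.pertD.ser u hu).neg
  have e : -((fun u => 1 - u * (deriv (pw b) u * u)) u - (1 + ((-β : ℝ) : ℂ) * u ^ 2)) =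
      Gd b β u := by
    unfold Gd; push_cast; ring
  rw [e] at h1
  refine h1.congr_fun ?_ |> fun h => h
  intro k
  rw [gd_add]; ring

theorem rep_Gd (h : Nrm F b β) : Rep (PowerSeries.mk (gd b)) (Gd b β) := by
  intro u hu
  have h1 := Gd_hasSum h hu
  have h2 := (hasSum_nat_add_iff' (f := fun k => PowerSeries.coeff k (PowerSeries.mk (gd b)) * u ^ k)
    (g := Gd b β u) 3).1
  apply h2
  have e : ∑ i ∈ Finset.range 3, PowerSeries.coeff i (PowerSeries.mk (gd b)) * u ^ i = 0 := by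
    apply Finset.sum_eq_zero
    intro i hi
    rw [Finset.mem_range] at hi
    rw [PowerSeries.coeff_mk, gd, if_pos hi, zero_mul]
  rw [e, sub_zero]
  simpa [PowerSeries.coeff_mk] using h1

theorem sum_nq {q : ℝ} (hq0 : 0 ≤ q) (hq : q < 1) :
    HasSum (fun k : ℕ => ((k : ℝ) + 2) * q ^ (k + 3)) (q ^ 3 * (2 - q) / (1 - q) ^ 2) := by
  have hn : ‖q‖ < 1 := by rw [Real.norm_eq_abs, abs_of_nonneg hq0]; exact hq
  have h1 := hasSum_coe_mul_geometric_of_norm_lt_one hn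
  have h2 := hasSum_geometric_of_norm_lt_one hn
  have h3 := (h1.add (h2.mul_left 2)).mul_left (q ^ 3)
  have hq1 : 1 - q ≠ 0 := by linarith
  have e1 : (fun k : ℕ => ((k : ℝ) + 2) * q ^ (k + 3)) =
      fun k : ℕ => q ^ 3 * ((k : ℝ) * q ^ k + 2 * q ^ k) := by
    funext k; rw [pow_add]; ring
  have e2 : q ^ 3 * (2 - q) / (1 - q) ^ 2 = q ^ 3 * (q / (1 - q) ^ 2 + 2 * (1 - q)⁻¹) := by
    field_simp; ring
  rw [e1, e2]
  exact h3

/-- the size of `G` -/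
theorem Gd_le (h : Nrm F b β) {x : ℝ} (hx0 : 0 ≤ x) (hx : x < 1) {u : ℂ} (hu : ‖u‖ = x) :
    ‖Gd b β u‖ ^ 2 ≤ (1 - β ^ 2) * ((x ^ 2) ^ 3 * (2 - x ^ 2) / (1 - x ^ 2) ^ 2) := by
  have hx2 : x ^ 2 < 1 := by nlinarith
  have hs := sum_nq (sq_nonneg x) hx2
  have hsn : ∀ N : ℕ, (∑ k ∈ Finset.range N, ‖gd b (k + 3) * u ^ (k + 3)‖) ^ 2 ≤
      (1 - β ^ 2) * ((x ^ 2) ^ 3 * (2 - x ^ 2) / (1 - x ^ 2) ^ 2) := by
    intro N
    have h1 : (∑ k ∈ Finset.range N, ‖gd b (k + 3) * u ^ (k + 3)‖) ^ 2 ≤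
        (∑ k ∈ Finset.range N, ((k : ℝ) + 2) * ‖b (k + 2)‖ ^ 2) *
        ∑ k ∈ Finset.range N, ((k : ℝ) + 2) * (x ^ 2) ^ (k + 3) := by
      apply Finset.sum_sq_le_sum_mul_sum_of_sq_le_mul
      · intro k _; positivity
      · intro k _; positivity
      · intro k _
        rw [gd_add, norm_mul, norm_mul, norm_pow, hu, Complex.norm_natCast]
        push_cast
        refine le_of_eq ?_
        ring
    have h2 := h.sig.area (N + 2)
    rw [Finset.sum_range_succ' , Finset.sum_range_succ'] at h2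
    have h3 : ‖b 1‖ ^ 2 = β ^ 2 := by rw [h.b1, norm_real, Real.norm_eq_abs, sq_abs]
    have h4 : ∑ k ∈ Finset.range N, ((k : ℝ) + 2) * ‖b (k + 2)‖ ^ 2 ≤ 1 - β ^ 2 := by
      have e : ∑ k ∈ Finset.range N, ((k : ℝ) + 2) * ‖b (k + 2)‖ ^ 2 =
          ∑ k ∈ Finset.range N, (((k + 1 + 1 : ℕ) : ℝ)) * ‖b (k + 1 + 1)‖ ^ 2 := by
        apply Finset.sum_congr rfl
        intro k _
        push_cast; ring
      rw [e]
      simp only [zero_add, Nat.cast_one, one_mul, Nat.cast_zero, zero_mul, add_zero, h3] at h2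
      linarith
    have h5 : ∑ k ∈ Finset.range N, ((k : ℝ) + 2) * (x ^ 2) ^ (k + 3) ≤
        (x ^ 2) ^ 3 * (2 - x ^ 2) / (1 - x ^ 2) ^ 2 :=
      sum_le_hasSum _ (fun k _ => by positivity) hs
    have h6 : 0 ≤ ∑ k ∈ Finset.range N, ((k : ℝ) + 2) * (x ^ 2) ^ (k + 3) :=
      Finset.sum_nonneg fun k _ => by positivity
    exact h1.trans (mul_le_mul h4 h5 h6 (by nlinarith [h.nn, h.beta_le]))
  have h7 := Gd_hasSum h (u := u) (by rw [hu]; exact hx)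
  set C := (1 - β ^ 2) * ((x ^ 2) ^ 3 * (2 - x ^ 2) / (1 - x ^ 2) ^ 2) with hC
  have hC0 : 0 ≤ C := (sq_nonneg _).trans (hsn 0)
  have h8 : ‖Gd b β u‖ ≤ √C := by
    apply le_of_tendsto h7.tendsto_sum_nat.norm
    refine Eventually.of_forall fun N => ?_
    refine (norm_sum_le _ _).trans ?_
    exact Real.le_sqrt_of_sq_le (hsn N)
  calc ‖Gd b β u‖ ^ 2 ≤ √C ^ 2 := pow_le_pow_left₀ (norm_nonneg _) h8 2
    _ = C := Real.sq_sqrt hC0

/-- the linear term -/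
noncomputable def Tn (p β x : ℝ) (b : ℕ → ℂ) : ℂ :=
  ∫ t in (-π)..π, (conj (Sp p β (x * ec t)) * Sp (p - 1) β (x * ec t)) * Gd b β (x * ec t)

theorem Tn_hasSum (h : Nrm F b β) (p : ℝ) {x : ℝ} (hx0 : 0 ≤ x) (hx : x < 1) :
    HasSum (fun m : ℕ => (gd b (2 * m)).re * x ^ (2 * m) * (Ij p β x (2 * m)).re)
      (Tn p β x b).re := by
  have hβ : |β| ≤ 1 := by rw [abs_of_nonneg h.nn]; exact h.beta_le
  have hc : Continuous fun t : ℝ => conj (Sp p β (x * ec t)) * Sp (p - 1) β (x * ec t) :=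
    (continuous_conj.comp ((rep_S p hβ).continuous_circle hx0 hx)).mul
      ((rep_S (p - 1) hβ).continuous_circle hx0 hx)
  have h1 := (rep_Gd h).hasSum_integral hx0 hx hc
  have h2 := hasSum_re h1
  have h3 : HasSum (fun n : ℕ => (gd b n).re * x ^ n * (Ij p β x n).re) (Tn p β x b).re := by
    unfold Tn
    refine h2.congr_fun ?_ |> fun h => h
    intro n
    rw [PowerSeries.coeff_mk]
    have e : (∫ t in (-π)..π, (conj (Sp p β (x * ec t)) * Sp (p - 1) β (x * ec t)) * ec t ^ n) =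
        Ij p β x n := rfl
    rw [e, Ij_eq p hβ hx0 hx, ofReal_re, ← ofReal_pow, re_mul_ofReal, re_mul_ofReal]
  exact (Function.Injective.hasSum_iff inj_two (f := fun n : ℕ => (gd b n).re * x ^ n *
    (Ij p β x n).re) (fun n hn => by rw [Ij_odd p hβ hx0 hx (not_range hn)]; simp)).2 h3

theorem Tn_term (h : Nrm F b β) {μ x : ℝ} (hμ : 0 ≤ μ) (hx0 : 0 ≤ x) (hx : x < 1) (m : ℕ) :
    |(gd b (2 * (m + 2))).re * x ^ (2 * (m + 2)) * (Ij (μ + 1) β x (2 * (m + 2))).re| ≤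
      (2 * m + 3) ^ 3 * (1 - β) *
        (2 * π * (β ^ (m + 2) * (x ^ 2) ^ (2 * (m + 2)) * Ls μ (β * x ^ 2) (m + 2))) := by
  have h1 := Ij_even hμ h.nn h.beta_le hx0 hx (m + 1)
  have h2 : |(gd b (2 * (m + 2))).re| ≤ (2 * m + 3) ^ 3 * (1 - β) := by
    have e : gd b (2 * (m + 2)) = ((2 * m + 3 : ℕ) : ℂ) * b (2 * m + 3) := by
      rw [show 2 * (m + 2) = (2 * m + 1) + 3 by ring, gd_add]
    rw [e, ← ofReal_natCast, re_ofReal_mul, abs_mul, Nat.abs_cast]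
    have h3 := Pool.Agent.H46.RD.IsSig.re_coeff h.sig (n := 2 * m + 3) (by omega)
    rw [h.b1, ofReal_re] at h3
    have h4 := mul_le_mul_of_nonneg_left h3 (by positivity : (0:ℝ) ≤ ((2 * m + 3 : ℕ) : ℝ))
    refine h4.trans (le_of_eq ?_)
    push_cast; ring
  rw [abs_mul, abs_mul, abs_of_nonneg (by positivity : 0 ≤ x ^ (2 * (m + 2)))]
  have h5 : x ^ (2 * (m + 2)) * |(Ij (μ + 1) β x (2 * (m + 2))).re| ≤
      2 * π * (β ^ (m + 2) * (x ^ 2) ^ (2 * (m + 2)) * Ls μ (β * x ^ 2) (m + 2)) := by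
    rw [mul_comm]
    refine le_trans (mul_le_mul_of_nonneg_right (abs_re_le_norm _) (by positivity)) h1
  rw [mul_assoc]
  exact mul_le_mul h2 h5 (by positivity) (by have := h.beta_le; positivity)

end Pool.Agent.H12.DP
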