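import Pool.Agent.H12.DP.Lin

/-!
# The bound for the linear term
-/

open Complex Set Filter Topology MeasureTheory
open scoped ComplexConjugate Real

namespace Pool.Agent.H12.DP

open Pool.Agent.H15.Sig

variable {F : ℂ → ℂ} {b : ℕ → ℂ} {β : ℝ}

theorem cube_le (m : ℕ) : (2 * (m : ℝ) + 5) ^ 3 ≤ 125 * 3 ^ m := by
  induction m with
  | zero => norm_num
  | succ m ih =>
    have hm : (0:ℝ) ≤ m := Nat.cast_nonneg m
    have h1 : (2 * ((m : ℝ) + 1) + 5) ^ 3 ≤ 3 * (2 * (m : ℝ) + 5) ^ 3 := by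
      have : 3 * (2 * (m : ℝ) + 5) ^ 3 - (2 * ((m : ℝ) + 1) + 5) ^ 3 =
        16 * (m:ℝ) ^ 3 + 96 * (m:ℝ) ^ 2 + 156 * m + 32 := by ring
      have h2 : 0 ≤ 16 * (m:ℝ) ^ 3 + 96 * (m:ℝ) ^ 2 + 156 * m + 32 := by positivity
      linarith
    push_cast
    have e : (125 : ℝ) * 3 ^ (m + 1) = 3 * (125 * 3 ^ m) := by rw [pow_succ]; ring
    rw [e]
    linarith

theorem Tn_le (h : Nrm F b β) {μ x : ℝ} (hμ : 0 ≤ μ) (hx0 : 0 ≤ x) (hx : x < 1)
    (hM : (x ^ 2) ^ 2 * max μ 1 ≤ 1 / 32) :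
    |(Tn (μ + 1) β x b).re| ≤ 2 * π * ((1 - β) * β ^ 2 * (x ^ 2) ^ 2 * ((μ + 1) *
      W1 μ (β * x ^ 2))) * (27 * (x ^ 2) ^ 2 * (μ / 2 + (β * x ^ 2) ^ 2 /
        (3 * (1 - (β * x ^ 2) ^ 2))) + 125 / 928) := by
  have hβ0 := h.nn
  have hβ1 := h.beta_le
  set q := x ^ 2 with hq
  set X := β * q with hX
  set M := max μ 1 with hMd
  have hM0 : 0 ≤ M := le_trans zero_le_one (le_max_right _ _)
  have hq0 : 0 ≤ q := sq_nonneg x
  have hq1 : q < 1 := by rw [hq]; nlinarith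
  have hX0 : 0 ≤ X := mul_nonneg hβ0 hq0
  have hX1 : X < 1 := by rw [hX]; nlinarith
  have hW := W1_ge_one (μ := μ) hX0 hX1
  set f : ℕ → ℝ := fun m => (gd b (2 * m)).re * x ^ (2 * m) * (Ij (μ + 1) β x (2 * m)).re with hf
  have h1 : HasSum f (Tn (μ + 1) β x b).re := Tn_hasSum h (μ + 1) hx0 hx
  have h2 := (hasSum_nat_add_iff' 3).2 h1
  have f0 : f 0 = 0 := by simp [hf, gd]
  have f1 : f 1 = 0 := by simp [hf, gd]
  rw [Finset.sum_range_succ, Finset.sum_range_succ, Finset.sum_range_one, f0, f1, zero_add,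
    zero_add] at h2
  set C := 2 * π * ((1 - β) * β ^ 2 * q ^ 2 * ((μ + 1) * W1 μ X)) with hC
  have hC0 : 0 ≤ C := by
    have : 0 ≤ 1 - β := by linarith
    have : 0 ≤ W1 μ X := by linarith
    positivity
  have hgeo : HasSum (fun m : ℕ => C * (125 / 1024) * (3 / 32 : ℝ) ^ m)
      (C * (125 / 1024) * (1 - 3 / 32 : ℝ)⁻¹) :=
    (hasSum_geometric_of_lt_one (by norm_num) (by norm_num)).mul_left _
  have h3 := tsum_of_norm_bounded hgeo (f := fun m => f (m + 3)) (fun m => ?_)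
  · rw [h2.tsum_eq, Real.norm_eq_abs] at h3
    have h4 : |f 2| ≤ C * (27 * q ^ 2 * (μ / 2 + X ^ 2 / (3 * (1 - X ^ 2)))) := by
      have h5 := Tn_term h hμ hx0 hx 0
      have h6 := Ls_two hμ hX0 hX1
      have h7 : |f 2| ≤ 27 * (1 - β) * (2 * π * (β ^ 2 * q ^ 4 * Ls μ X 2)) := by
        refine h5.trans (le_of_eq ?_)
        rw [hX, hq]
        push_cast
        ring_nf
      refine h7.trans ?_
      have h8 := mul_le_mul_of_nonneg_left h6
        (by have : 0 ≤ 1 - β := by linarith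
            positivity : 0 ≤ 27 * (1 - β) * (2 * π * (β ^ 2 * q ^ 4)))
      refine le_trans (le_of_eq ?_) (h8.trans (le_of_eq ?_))
      · ring
      · rw [hC]; ring
    have h9 : (Tn (μ + 1) β x b).re = ((Tn (μ + 1) β x b).re - f 2) + f 2 := by ring
    rw [h9]
    refine (abs_add_le _ _).trans ((add_le_add h3 h4).trans (le_of_eq ?_))
    norm_num
    ring
  · have h5 := Tn_term h hμ hx0 hx (m + 1)
    rw [Real.norm_eq_abs]
    have h6 : |f (m + 3)| ≤ (2 * ((m + 1 : ℕ) : ℝ) + 3) ^ 3 * (1 - β) *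
        (2 * π * (β ^ (m + 1 + 2) * q ^ (2 * (m + 1 + 2)) * Ls μ X (m + 1 + 2))) := h5
    refine h6.trans ?_
    have h7 := (Ls_le hμ hX0 hX1 (m + 2)).2
    have h8 := cube_le m
    have e1 : (2 * ((m + 1 : ℕ) : ℝ) + 3) = 2 * (m : ℝ) + 5 := by push_cast; ring
    rw [e1]
    have hb : β ^ (m + 1 + 2) ≤ β ^ 2 := pow_le_pow_of_le_one hβ0 hβ1 (by omega)
    have hqM : (q ^ 2 * M) ^ (m + 2) ≤ (1 / 32) ^ (m + 2) :=
      pow_le_pow_left₀ (by positivity) hM _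
    have h10 : q ^ (2 * (m + 1 + 2)) * Ls μ X (m + 1 + 2) ≤
        q ^ 2 * ((μ + 1) * W1 μ X) * (1 / 32) ^ (m + 2) := by
      have h11 := mul_le_mul_of_nonneg_left h7 (by positivity : 0 ≤ q ^ (2 * (m + 1 + 2)))
      have h12 := mul_le_mul_of_nonneg_left hqM
        (by have : 0 ≤ W1 μ X := by linarith
            positivity : 0 ≤ q ^ 2 * ((μ + 1) * W1 μ X))
      have e : q ^ (2 * (m + 1 + 2)) * ((μ + 1) * max μ 1 ^ (m + 2) * W1 μ X) =
          q ^ 2 * ((μ + 1) * W1 μ X) * (q ^ 2 * M) ^ (m + 2) := by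
        rw [← hMd, mul_pow, ← pow_mul, show 2 * (m + 1 + 2) = 2 * (m + 2) + 2 by ring, pow_add]
        ring
      have h13 : q ^ (2 * (m + 1 + 2)) * Ls μ X (m + 1 + 2) ≤
        q ^ (2 * (m + 1 + 2)) * ((μ + 1) * max μ 1 ^ (m + 2) * W1 μ X) := h11
      rw [e] at h13
      exact h13.trans h12
    have hLs0 : 0 ≤ q ^ (2 * (m + 1 + 2)) * Ls μ X (m + 1 + 2) := by
      apply mul_nonneg (by positivity)
      exact tsum_nonneg fun k => mul_nonneg (abs_nonneg _) (by positivity)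
    have h14 : β ^ (m + 1 + 2) * (q ^ (2 * (m + 1 + 2)) * Ls μ X (m + 1 + 2)) ≤
        β ^ 2 * (q ^ 2 * ((μ + 1) * W1 μ X) * (1 / 32) ^ (m + 2)) :=
      mul_le_mul hb h10 hLs0 (by positivity)
    have h15 : (2 * (m : ℝ) + 5) ^ 3 * (1 - β) ≤ 125 * 3 ^ m * (1 - β) :=
      mul_le_mul_of_nonneg_right h8 (by linarith)
    have h16 := mul_le_mul h15 (mul_le_mul_of_nonneg_left h14
      (by positivity : (0:ℝ) ≤ 2 * π)) (by positivity)
      (mul_nonneg (by positivity) (by linarith : 0 ≤ 1 - β))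
    refine le_trans (le_of_eq ?_) (h16.trans (le_of_eq ?_))
    · ring
    · rw [hC, pow_add (1 / 32 : ℝ), show (3 / 32 : ℝ) = 3 * (1 / 32) by norm_num, mul_pow (3:ℝ)]
      ring

end Pool.Agent.H12.DP
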