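import Pool.Agent.H12.DP.Sv
import Pool.Agent.H15.Sig.Main

/-!
# The linear term: `∫ conj (S ^ p) S ^ (p - 1) G`, `S = 1 - β u ^ 2`
-/

open Complex Set Filter Topology MeasureTheory
open scoped ComplexConjugate Real

namespace Pool.Agent.H12.DP

open Pool.Agent.H15.Sig

/-- coefficients of `(1 - β u ^ 2) ^ p` -/
noncomputable def sc (p β : ℝ) (n : ℕ) : ℝ := if Even n then bc p (n / 2) * (-β) ^ (n / 2) else 0

theorem sc_two (p β : ℝ) (k : ℕ) : sc p β (2 * k) = bc p k * (-β) ^ k := by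
  unfold sc
  rw [if_pos (even_two_mul k), Nat.mul_div_cancel_left k (by norm_num)]

theorem sc_odd (p β : ℝ) {n : ℕ} (hn : ¬ Even n) : sc p β n = 0 := by
  unfold sc; rw [if_neg hn]

theorem inj_two : Function.Injective (fun k : ℕ => 2 * k) := fun a b h => by
  simp only at h; omega

theorem not_range {n : ℕ} (hn : n ∉ Set.range (fun k : ℕ => 2 * k)) : ¬ Even n := by
  rintro ⟨r, hr⟩
  exact hn ⟨r, by simp only; omega⟩

/-- the power -/
noncomputable def Sp (p β : ℝ) (u : ℂ) : ℂ := (1 - (β : ℂ) * u ^ 2) ^ (p : ℂ)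

theorem rep_S (p : ℝ) {β : ℝ} (hβ : |β| ≤ 1) :
    Rep (PowerSeries.mk fun n => (sc p β n : ℂ)) (Sp p β) := by
  intro u hu
  have hv : ‖-((β : ℂ) * u ^ 2)‖ < 1 := by
    rw [norm_neg, norm_mul, norm_pow, norm_real, Real.norm_eq_abs]
    have h1 : ‖u‖ ^ 2 < 1 := by nlinarith [norm_nonneg u]
    have h2 : 0 ≤ ‖u‖ ^ 2 := by positivity
    nlinarith [abs_nonneg β]
  have h1 := rep_bps p _ hv
  rw [← Function.Injective.hasSum_iff inj_two]
  · unfold Sp
    rw [sub_eq_add_neg]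
    convert h1 using 1
    funext k
    simp only [Function.comp, PowerSeries.coeff_mk, bps, sc_two, choose_eq]
    push_cast
    rw [pow_mul, neg_pow (β : ℂ), neg_pow ((β : ℂ) * u ^ 2), mul_pow]
    ring
  · intro n hn
    rw [PowerSeries.coeff_mk, sc_odd p β (not_range hn)]
    simp

/-- `∫ conj (S ^ p) S ^ (p - 1) (exp (-it)) ^ j` -/
noncomputable def Ij (p β x : ℝ) (j : ℕ) : ℂ :=
  ∫ t in (-π)..π, (conj (Sp p β (x * ec t)) * Sp (p - 1) β (x * ec t)) * ec t ^ j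

theorem Ij_hasSum (p : ℝ) {β x : ℝ} (hβ : |β| ≤ 1) (hx0 : 0 ≤ x) (hx : x < 1) (j : ℕ) :
    HasSum (fun k : ℕ => ((2 * π * (sc (p - 1) β k * sc p β (k + j)) * x ^ (2 * k + j) : ℝ) : ℂ))
      (Ij p β x j) := by
  have hc : Continuous fun t : ℝ => conj (Sp p β (x * ec t)) * ec t ^ j :=
    (continuous_conj.comp ((rep_S p hβ).continuous_circle hx0 hx)).mul (continuous_ec.pow j)
  have h1 := (rep_S (p - 1) hβ).hasSum_integral hx0 hx hc
  have e : Ij p β x j = ∫ t in (-π)..π, (conj (Sp p β (x * ec t)) * ec t ^ j) *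
      Sp (p - 1) β (x * ec t) := by
    unfold Ij
    apply intervalIntegral.integral_congr
    intro t _
    simp only; ring
  rw [e]
  convert h1 using 1
  funext k
  have e2 : (∫ t in (-π)..π, (conj (Sp p β (x * ec t)) * ec t ^ j) * ec t ^ k) =
      ∫ t in (-π)..π, conj (Sp p β (x * ec t)) * ec t ^ (k + j) := by
    apply intervalIntegral.integral_congr
    intro t _
    simp only; rw [pow_add]; ring
  rw [e2, (rep_S p hβ).coeff_integral_conj hx0 hx]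
  simp only [PowerSeries.coeff_mk, conj_ofReal]
  push_cast
  rw [show 2 * k + j = k + (k + j) by ring, pow_add (x : ℂ) k (k + j)]
  ring

theorem Ij_eq (p : ℝ) {β x : ℝ} (hβ : |β| ≤ 1) (hx0 : 0 ≤ x) (hx : x < 1) (j : ℕ) :
    Ij p β x j = ((∑' k : ℕ, 2 * π * (sc (p - 1) β k * sc p β (k + j)) * x ^ (2 * k + j) : ℝ) : ℂ) := by
  rw [Complex.ofReal_tsum]
  exact (Ij_hasSum p hβ hx0 hx j).tsum_eq.symm

theorem Ij_odd (p : ℝ) {β x : ℝ} (hβ : |β| ≤ 1) (hx0 : 0 ≤ x) (hx : x < 1) {j : ℕ}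
    (hj : ¬ Even j) : Ij p β x j = 0 := by
  rw [Ij_eq p hβ hx0 hx]
  have : ∀ k : ℕ, 2 * π * (sc (p - 1) β k * sc p β (k + j)) * x ^ (2 * k + j) = 0 := by
    intro k
    by_cases hk : Even k
    · have : ¬ Even (k + j) := by rw [Nat.even_add]; tauto
      rw [sc_odd p β this]; ring
    · rw [sc_odd (p - 1) β hk]; ring
  simp [this]

theorem Ij_even {μ β x : ℝ} (hμ : 0 ≤ μ) (hβ0 : 0 ≤ β) (hβ : β ≤ 1) (hx0 : 0 ≤ x) (hx : x < 1)
    (m : ℕ) :
    ‖Ij (μ + 1) β x (2 * (m + 1))‖ * x ^ (2 * (m + 1)) ≤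
      2 * π * (β ^ (m + 1) * (x ^ 2) ^ (2 * (m + 1)) * Ls μ (β * x ^ 2) (m + 1)) := by
  have hβ' : |β| ≤ 1 := by rw [abs_of_nonneg hβ0]; exact hβ
  have hX0 : 0 ≤ β * x ^ 2 := by positivity
  have hX : β * x ^ 2 < 1 := by nlinarith
  have h1 := Ij_hasSum (μ + 1) hβ' hx0 hx (2 * (m + 1))
  rw [← Function.Injective.hasSum_iff inj_two] at h1
  · have h2 := h1.mul_right ((x : ℂ) ^ (2 * (m + 1)))
    have h3 := ((Ls_le hμ hX0 hX m).1.hasSum.mul_left
      (2 * π * (β ^ (m + 1) * (x ^ 2) ^ (2 * (m + 1)))))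
    have h4 := tsum_of_norm_bounded h3 (f := fun k : ℕ =>
      (((fun k : ℕ => ((2 * π * (sc (μ + 1 - 1) β k * sc (μ + 1) β (k + 2 * (m + 1))) *
        x ^ (2 * k + 2 * (m + 1)) : ℝ) : ℂ)) ∘ fun k => 2 * k) k * (x : ℂ) ^ (2 * (m + 1))))
      (fun k => ?_)
    · rw [h2.tsum_eq, norm_mul, norm_pow, norm_real, Real.norm_eq_abs, abs_of_nonneg hx0] at h4
      refine h4.trans (le_of_eq ?_)
      unfold Ls; ring
    · simp only [Function.comp]
      rw [← Complex.ofReal_pow, ← Complex.ofReal_mul, norm_real, Real.norm_eq_abs,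
        add_sub_cancel_right, sc_two, show 2 * k + 2 * (m + 1) = 2 * (k + (m + 1)) by ring, sc_two]
      have e : 2 * π * (bc μ k * (-β) ^ k * (bc (μ + 1) (k + (m + 1)) * (-β) ^ (k + (m + 1)))) *
          x ^ (2 * (2 * k) + 2 * (m + 1)) * x ^ (2 * (m + 1)) =
          ((-1) ^ k * (-1) ^ (k + (m + 1))) * (2 * π * (β ^ (m + 1) * (x ^ 2) ^ (2 * (m + 1))) *
          ((bc (μ + 1) (k + (m + 1)) * bc μ k) * (β * x ^ 2) ^ (2 * k))) := by
        rw [neg_pow β k, neg_pow β (k + (m + 1)), mul_pow β, ← pow_mul x, ← pow_mul x]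
        ring
      rw [e, abs_mul, abs_mul, abs_pow, abs_pow, abs_neg, abs_one, one_pow, one_pow, one_mul,
        one_mul, abs_mul, abs_mul (bc (μ + 1) (k + (m + 1)) * bc μ k),
        abs_of_nonneg (by positivity : 0 ≤ 2 * π * (β ^ (m + 1) * (x ^ 2) ^ (2 * (m + 1)))),
        abs_of_nonneg (by positivity : 0 ≤ (β * x ^ 2) ^ (2 * k))]
  · intro n hn
    rw [sc_odd _ β (not_range hn)]
    simp

end Pool.Agent.H12.DP
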