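import Pool.Agent.H15.IA.Prog

/-!
# The numerical inequality of case B for `q ≥ 1/32`
-/

namespace Pool.Agent.H12.DP

open Pool.Agent.H15.IA

def prog {V : Type} (q : V) : P V :=
  .b .mul q q fun v1 => .c 32 1 fun v2 => .b .mul v2 v1 fun v3 => .c 1 1 fun v4 =>
  .b .sub v4 v3 fun v5 => .b .sub v4 q fun v6 => .c 2 1 fun v7 => .b .sub v7 q fun v8 =>
  .b .mul v6 v6 fun v9 => .b .div v8 v9 fun v10 => .b .mul v5 v10 fun v11 => .c 8 1 fun v12 =>
  .b .mul v12 v6 fun v13 => .b .div v11 v13 fun v14 => .b .sub v4 v1 fun v15 =>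
  .b .mul v5 v5 fun v16 => .c 1024 1 fun v17 => .b .mul v17 q fun v18 =>
  .b .mul v18 v15 fun v19 => .b .div v16 v19 fun v20 => .b .add q v20 fun v21 =>
  .c 27 2 fun v22 => .b .mul v22 v1 fun v23 => .c 823 1856 fun v24 => .b .add v24 v23 fun v25 =>
  .b .mul v1 v1 fun v26 => .c 9 1 fun v27 => .b .mul v27 v26 fun v28 =>
  .b .div v28 v15 fun v29 => .b .sub v25 v29 fun v30 => .b .sub v4 v14 fun v31 =>
  .b .mul v30 v31 fun v32 => .b .add v4 v5 fun v33 => .b .mul v33 v10 fun v34 =>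
  .b .mul v34 v21 fun v35 => .b .sub v32 v35 fun v36 =>
  .ret [v36]

theorem prog_rel {V W : Type} (R : V → W → Prop) (a0 : V) (x0 : W) : R a0 x0 →
    Rel R (prog a0) (prog x0) := by
  intros
  unfold prog
  repeat' (first | assumption | (intro _ _ _) | constructor)


theorem bis_ok : bis (tst (l1 prog)) [1] 14 [Iv.of 312 1800 10000] = true := by
  decide +kernel

theorem num_one {q : ℝ} (h1 : 1 / 32 ≤ q) (h2 : q ≤ 9 / 50) :
    (1 + (1 - 32 * (q * q))) * ((2 - q) / ((1 - q) * (1 - q))) *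
      (q + (1 - 32 * (q * q)) * (1 - 32 * (q * q)) / (1024 * q * (1 - q * q))) <
    (823 / 1856 + 27 / 2 * (q * q) - 9 * (q * q * (q * q)) / (1 - q * q)) *
      (1 - (1 - 32 * (q * q)) * ((2 - q) / ((1 - q) * (1 - q))) / (8 * (1 - q))) := by
  have h := check1 (p := prog) prog_rel bis_ok (x := q)
    (Iv.of_mem (by norm_num) (by norm_num; linarith) (by norm_num; linarith))
  simp only [prog, sem, F2.ev, Good] at h
  rcases h with h | ⟨y, hy, _⟩
  · norm_num at h
    linarith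
  · simp at hy

end Pool.Agent.H12.DP
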