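import Pool.Agent.H12.DP.Bc

/-!
# Estimates for the series: mean of `|S|^(2p-2)`, linear terms, gain
-/

open Complex Set Filter Topology MeasureTheory
open scoped ComplexConjugate Real

namespace Pool.Agent.H12.DP

open Pool.Agent.H15.Sig

/-- `s² = X² μ² / (1 - X²)` -/
noncomputable def s2 (μ X : ℝ) : ℝ := X ^ 2 * μ ^ 2 / (1 - X ^ 2)

theorem s2_nonneg {μ X : ℝ} (hX0 : 0 ≤ X) (hX : X < 1) : 0 ≤ s2 μ X := by
  have : 0 < 1 - X ^ 2 := by nlinarith
  unfold s2; positivity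

theorem W0_le {μ X : ℝ} (hμ : 0 ≤ μ) (hX0 : 0 ≤ X) (hX : X < 1) :
    ∑' k : ℕ, bc μ k ^ 2 * X ^ (2 * k) ≤ (1 + s2 μ X) * W1 μ X := by
  have h := (wt_sum hμ hX0 hX (f := fun k => (k : ℝ) + 1) (A := 1) (B := 1) zero_le_one zero_le_one
    (fun k => by positivity) (fun k => by
      have : (k : ℝ) ≤ (k : ℝ) ^ 2 := by
        rcases Nat.eq_zero_or_pos k with h | h
        · simp [h]
        · have : (1 : ℝ) ≤ k := by exact_mod_cast h
          nlinarith
      linarith)).2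
  rw [one_mul] at h
  refine le_trans (le_of_eq ?_) h
  apply tsum_congr
  intro k
  unfold wt
  have : (k : ℝ) + 1 ≠ 0 := by positivity
  field_simp

theorem W0_le' {μ X θ : ℝ} (hμ : 0 ≤ μ) (hX0 : 0 ≤ X) (hX : X < 1) (hθ : 0 < θ)
    (hs : s2 μ X ≤ θ ^ 2) :
    ∑' k : ℕ, bc μ k ^ 2 * X ^ (2 * k) ≤ (1 + θ) * W1 μ X := by
  have h := (wt_sum hμ hX0 hX (f := fun k => (k : ℝ) + 1) (A := 1 + θ / 2) (B := 1 / (2 * θ))
    (by positivity) (by positivity)
    (fun k => by positivity) (fun k => by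
      have h1 : 0 ≤ ((k : ℝ) - θ) ^ 2 / (2 * θ) := by positivity
      have e : ((k : ℝ) - θ) ^ 2 / (2 * θ) = 1 / (2 * θ) * (k : ℝ) ^ 2 - k + θ / 2 := by
        field_simp; ring
      rw [e] at h1
      linarith)).2
  have e2 : ∑' k : ℕ, bc μ k ^ 2 * X ^ (2 * k) = ∑' k : ℕ, ((k : ℝ) + 1) * wt μ X k := by
    apply tsum_congr
    intro k
    unfold wt
    have : (k : ℝ) + 1 ≠ 0 := by positivity
    field_simp
  rw [e2]
  refine h.trans (mul_le_mul_of_nonneg_right ?_ (le_trans zero_le_one (W1_ge_one hX0 hX)))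
  have h3 : 1 / (2 * θ) * (X ^ 2 * μ ^ 2 / (1 - X ^ 2)) ≤ 1 / (2 * θ) * θ ^ 2 :=
    mul_le_mul_of_nonneg_left hs (by positivity)
  have h4 : 1 / (2 * θ) * θ ^ 2 = θ / 2 := by field_simp
  linarith

/-- the sums in the linear terms -/
noncomputable def Ls (μ X : ℝ) (m : ℕ) : ℝ := ∑' k : ℕ, |bc (μ + 1) (k + m) * bc μ k| * X ^ (2 * k)

theorem Ls_term {μ X : ℝ} (hμ : 0 ≤ μ) (m k : ℕ) :
    |bc (μ + 1) (k + (m + 1)) * bc μ k| * X ^ (2 * k) =
      ((μ + 1) * (|bc μ (k + m)| / |bc μ k|) * (((k : ℝ) + 1) / (k + (m + 1)))) * wt μ X k := by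
  have h1 := bc_succ' (μ + 1) (k + m)
  rw [add_sub_cancel_right] at h1
  push_cast at h1
  have hk : (0:ℝ) ≤ k := Nat.cast_nonneg k
  have hm : (0:ℝ) ≤ m := Nat.cast_nonneg m
  have h2 : (k : ℝ) + m + 1 ≠ 0 := by positivity
  have h3 : bc (μ + 1) (k + (m + 1)) = (μ + 1) * bc μ (k + m) / (k + m + 1) := by
    rw [← add_assoc]; field_simp; linarith
  rw [h3]
  by_cases h0 : bc μ k = 0
  · simp [h0, wt]
  have h4 : |bc μ k| ≠ 0 := abs_ne_zero.2 h0
  have h5 : bc μ k ^ 2 = |bc μ k| * |bc μ k| := by rw [← sq, sq_abs]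
  rw [abs_mul, abs_div, abs_mul, abs_of_nonneg (by positivity : 0 ≤ μ + 1),
    abs_of_nonneg (by positivity : 0 ≤ (k : ℝ) + m + 1)]
  unfold wt
  rw [h5]
  have h6 : (k : ℝ) + 1 ≠ 0 := by positivity
  have h7 : (k : ℝ) + (m + 1) ≠ 0 := by positivity
  field_simp
  ring

theorem Ls_le {μ X : ℝ} (hμ : 0 ≤ μ) (hX0 : 0 ≤ X) (hX : X < 1) (m : ℕ) :
    Summable (fun k : ℕ => |bc (μ + 1) (k + (m + 1)) * bc μ k| * X ^ (2 * k)) ∧
    Ls μ X (m + 1) ≤ (μ + 1) * max μ 1 ^ m * W1 μ X := by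
  have hM : 0 ≤ max μ 1 := le_trans zero_le_one (le_max_right _ _)
  have h := wt_sum hμ hX0 hX (f := fun k : ℕ =>
    (μ + 1) * (|bc μ (k + m)| / |bc μ k|) * (((k : ℝ) + 1) / (k + (m + 1))))
    (A := (μ + 1) * max μ 1 ^ m) (B := 0) (by positivity) le_rfl
    (fun k => by positivity) (fun k => by
      have hk : (0:ℝ) ≤ k := Nat.cast_nonneg k
      have hm : (0:ℝ) ≤ m := Nat.cast_nonneg m
      have h1 : ((k : ℝ) + 1) / (k + (m + 1)) ≤ 1 := by
        rw [div_le_one (by positivity)]; linarith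
      have h2 : |bc μ (k + m)| / |bc μ k| ≤ max μ 1 ^ m := by
        by_cases h0 : bc μ k = 0
        · simp only [h0, abs_zero, div_zero]; positivity
        · rw [div_le_iff₀ (abs_pos.2 h0)]
          exact bc_steps hμ k m
      have h3 : 0 ≤ ((k : ℝ) + 1) / (k + (m + 1)) := by positivity
      have h4 : 0 ≤ |bc μ (k + m)| / |bc μ k| := by positivity
      calc (μ + 1) * (|bc μ (k + m)| / |bc μ k|) * (((k : ℝ) + 1) / (k + (m + 1)))
          ≤ (μ + 1) * (|bc μ (k + m)| / |bc μ k|) * 1 :=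
            mul_le_mul_of_nonneg_left h1 (by positivity)
        _ ≤ (μ + 1) * max μ 1 ^ m + 0 * (k : ℝ) ^ 2 := by
            rw [mul_one, zero_mul, add_zero]
            exact mul_le_mul_of_nonneg_left h2 (by positivity))
  constructor
  · refine h.1.congr fun k => ?_
    exact (Ls_term hμ m k).symm
  · have e : Ls μ X (m + 1) = ∑' k : ℕ,
        ((μ + 1) * (|bc μ (k + m)| / |bc μ k|) * (((k : ℝ) + 1) / (k + (m + 1)))) * wt μ X k := by
      unfold Ls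
      exact tsum_congr fun k => Ls_term hμ m k
    rw [e]
    refine h.2.trans (le_of_eq ?_)
    ring

theorem Ls_two {μ X : ℝ} (hμ : 0 ≤ μ) (hX0 : 0 ≤ X) (hX : X < 1) :
    Ls μ X 2 ≤ (μ + 1) * (μ / 2 + X ^ 2 / (3 * (1 - X ^ 2))) * W1 μ X := by
  have hX2 : 0 < 1 - X ^ 2 := by nlinarith
  set ν : ℝ := max 1 (μ ^ 2) with hν
  have hν1 : 1 ≤ ν := le_max_left _ _
  have hν2 : μ ^ 2 ≤ ν := le_max_right _ _
  have h := wt_sum hμ hX0 hX (f := fun k : ℕ => |μ - k| / ((k : ℝ) + 2))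
    (A := μ / 2) (B := 1 / (3 * ν)) (by positivity) (by positivity)
    (fun k => by positivity) (fun k => by
      have hk : (0:ℝ) ≤ k := Nat.cast_nonneg k
      rw [div_le_iff₀ (by positivity)]
      by_cases hk2 : (k : ℝ) ≤ 2 * μ
      · have h1 : |μ - k| ≤ μ := by rw [abs_le]; constructor <;> linarith
        have h2 : 0 ≤ 1 / (3 * ν) * (k : ℝ) ^ 2 := by positivity
        nlinarith
      · have hk2 := not_le.1 hk2
        have h1 : |μ - k| ≤ k := by rw [abs_le]; constructor <;> linarith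
        have hk0 : (0 : ℝ) < k := by linarith
        have hk1 : (1 : ℝ) ≤ k := by
          have : 0 < k := by exact_mod_cast hk0
          exact_mod_cast this
        have h3 : 1 * (k : ℝ) ≤ 1 / (3 * ν) * (k : ℝ) ^ 2 * (k + 2) := by
          have h4 : 3 * ν ≤ (k : ℝ) * (k + 2) := by
            rcases max_choice 1 (μ ^ 2) with h5 | h5
            · rw [hν, h5]; nlinarith
            · rw [hν, h5]; nlinarith
          rw [one_div, mul_assoc, ← div_eq_inv_mul, le_div_iff₀ (by positivity)]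
          nlinarith
        have h5 : 0 ≤ μ / 2 * ((k : ℝ) + 2) := by positivity
        nlinarith)
  have e : Ls μ X 2 = (μ + 1) * ∑' k : ℕ, |μ - k| / ((k : ℝ) + 2) * wt μ X k := by
    rw [← tsum_mul_left]
    unfold Ls
    apply tsum_congr
    intro k
    have h1 := Ls_term (X := X) hμ 1 k
    rw [show k + (1 + 1) = k + 2 from rfl] at h1
    rw [h1]
    have hk : (0:ℝ) ≤ k := Nat.cast_nonneg k
    by_cases h0 : bc μ k = 0
    · simp [h0, wt]
    have h2 := bc_succ μ k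
    have h3 : |bc μ (k + 1)| / |bc μ k| = |μ - k| / (k + 1) := by
      have h4 : |bc μ k| ≠ 0 := abs_ne_zero.2 h0
      have h5 : ((k : ℝ) + 1) * |bc μ (k + 1)| = |μ - k| * |bc μ k| := by
        rw [← abs_of_nonneg (by positivity : (0:ℝ) ≤ (k:ℝ) + 1), ← abs_mul, h2, abs_mul]
      field_simp
      linarith
    rw [h3]
    push_cast
    have h6 : (k : ℝ) + 1 ≠ 0 := by positivity
    have h7 : (k : ℝ) + (1 + 1) ≠ 0 := by positivity
    have h8 : (k : ℝ) + 2 ≠ 0 := by positivity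
    field_simp
    norm_num
    ring
  rw [e, mul_assoc]
  apply mul_le_mul_of_nonneg_left _ (by positivity)
  refine h.2.trans (mul_le_mul_of_nonneg_right ?_ (le_trans zero_le_one (W1_ge_one hX0 hX)))
  have h9 : 1 / (3 * ν) * (X ^ 2 * μ ^ 2 / (1 - X ^ 2)) ≤ X ^ 2 / (3 * (1 - X ^ 2)) := by
    rw [div_mul_div_comm, div_le_div_iff₀ (by positivity) (by positivity)]
    have : X ^ 2 * μ ^ 2 ≤ X ^ 2 * ν := mul_le_mul_of_nonneg_left hν2 (sq_nonneg X)
    nlinarith [mul_le_mul_of_nonneg_right this (by positivity : 0 ≤ 3 * (1 - X ^ 2))]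
  linarith

theorem pow_gap {z : ℝ} (h0 : 0 ≤ z) (h1 : z ≤ 1) (k : ℕ) :
    ((k : ℝ) + 1) * (1 - z) * z ^ k ≤ 1 - z ^ (k + 1) := by
  induction k with
  | zero => simp
  | succ k ih =>
    have h2 := mul_le_mul_of_nonneg_left ih h0
    have h3 : z ^ (k + 1) ≤ 1 := pow_le_one₀ h0 h1
    have h4 : 0 ≤ (1 - z) * (1 - z ^ (k + 1)) := mul_nonneg (by linarith) (by linarith)
    push_cast
    have e1 : z ^ (k + 1 + 1) = z * z ^ (k + 1) := by ring
    have e3 : z * (((k : ℝ) + 1) * (1 - z) * z ^ k) = ((k : ℝ) + 1) * (1 - z) * z ^ (k + 1) := by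
      ring
    rw [e3] at h2
    rw [e1]
    linear_combination h2 + h4

/-- the gain -/
theorem gain {p X β : ℝ} (hX0 : 0 ≤ X) (hX : X < 1) (hβ0 : 0 ≤ β) (hβ1 : β ≤ 1) :
    2 * π * (p ^ 2 * X ^ 2 * (1 - β ^ 2) * W1 (p - 1) (β * X)) ≤ Mo p X - Mo p (β * X) := by
  have hβX : β * X < 1 := by nlinarith
  have hβX0 : 0 ≤ β * X := mul_nonneg hβ0 hX0
  have h1 := (Mo_hasSum p hX0 hX).sub (Mo_hasSum p hβX0 hβX)
  have h2 := (hasSum_nat_add_iff' 1).2 h1
  simp only [Finset.sum_range_one, mul_zero, pow_zero, sub_self, sub_zero] at h2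
  have h3 : HasSum (fun k => 2 * π * (p ^ 2 * X ^ 2 * (1 - β ^ 2) * wt (p - 1) (β * X) k))
      (2 * π * (p ^ 2 * X ^ 2 * (1 - β ^ 2) * W1 (p - 1) (β * X))) :=
    ((summable_wt (μ := p - 1) hβX0 hβX).hasSum.mul_left _).mul_left _
  refine hasSum_le (fun k => ?_) h3 h2
  rw [choose_eq, norm_real, Real.norm_eq_abs, sq_abs]
  have hk : (0:ℝ) ≤ k := Nat.cast_nonneg k
  have h4 := bc_succ' p k
  have hk1 : (k : ℝ) + 1 ≠ 0 := by positivity
  have h5 : bc p (k + 1) = p * bc (p - 1) k / (k + 1) := by field_simp; linarith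
  have h6 := pow_gap (sq_nonneg β) (by nlinarith : β ^ 2 ≤ 1) k
  rw [h5]
  unfold wt
  have e1 : 2 * π * (p * bc (p - 1) k / (k + 1)) ^ 2 * X ^ (2 * (k + 1)) -
      2 * π * (p * bc (p - 1) k / (k + 1)) ^ 2 * (β * X) ^ (2 * (k + 1)) =
      2 * π * p ^ 2 * bc (p - 1) k ^ 2 * X ^ (2 * (k + 1)) / (k + 1) ^ 2 *
        (1 - (β ^ 2) ^ (k + 1)) := by
    rw [mul_pow β X, pow_mul β 2]; field_simp
  have e2 : 2 * π * (p ^ 2 * X ^ 2 * (1 - β ^ 2) *
      (bc (p - 1) k ^ 2 * (β * X) ^ (2 * k) / (k + 1))) =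
      2 * π * p ^ 2 * bc (p - 1) k ^ 2 * X ^ (2 * (k + 1)) / (k + 1) ^ 2 *
        (((k : ℝ) + 1) * (1 - β ^ 2) * (β ^ 2) ^ k) := by
    rw [mul_pow β X, pow_mul β 2, show 2 * (k + 1) = 2 * k + 2 by ring, pow_add X]
    field_simp
  rw [e1, e2]
  apply mul_le_mul_of_nonneg_left h6
  have : 0 ≤ X ^ (2 * (k + 1)) := by positivity
  positivity

end Pool.Agent.H12.DP
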